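import Mathlib

namespace Pool.Agent.Helper285.Lines

/-- reduction of the concentration inequality to the group of order `3h` -/
theorem conc_reduce {N m T a h : ℤ} (hN : 3 * h ≤ N) (hm : m ≤ 3 * h) (hm0 : 0 ≤ m)
    (hT : T ≤ m ^ 2)
    (hc : 2 * (N * T - m ^ 3) ≤ (3 * a - m) * (m * N - m ^ 2)) :
    2 * (3 * h * T - m ^ 3) ≤ (3 * a - m) * m * (3 * h - m) := by
  have h1 : 0 ≤ (N - m) * ((3 * a - m) * m - 2 * T) + 2 * m * (m ^ 2 - T) := by
    have e : (N - m) * ((3 * a - m) * m - 2 * T) + 2 * m * (m ^ 2 - T) =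
      (3 * a - m) * (m * N - m ^ 2) - 2 * (N * T - m ^ 3) := by ring
    rw [e]; linarith
  have h2 : 0 ≤ m * (m ^ 2 - T) := mul_nonneg hm0 (by linarith)
  have e2 : (3 * a - m) * m * (3 * h - m) - 2 * (3 * h * T - m ^ 3) =
      (3 * h - m) * ((3 * a - m) * m - 2 * T) + 2 * (m * (m ^ 2 - T)) := by ring
  have e3 : 0 ≤ (3 * h - m) * ((3 * a - m) * m - 2 * T) + 2 * (m * (m ^ 2 - T)) := by
    rcases le_total 0 ((3 * a - m) * m - 2 * T) with hX | hX
    · have := mul_nonneg (show (0 : ℤ) ≤ 3 * h - m by linarith) hX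
      linarith
    · have h4 : 0 ≤ (N - 3 * h) * (-((3 * a - m) * m - 2 * T)) :=
        mul_nonneg (by linarith) (by linarith)
      nlinarith
  linarith

theorem beta_bound {h e b T : ℤ} (hh : 0 < h) (he : 0 ≤ e)
    (heh : 50 * e ≤ 19 * h) (hT : 2 * h ^ 2 + 3 * e ^ 2 ≤ 2 * T)
    (hc : 2 * (3 * h * T - (h + e) ^ 3) ≤
      (3 * (h - b) - (h + e)) * (h + e) * (3 * h - (h + e))) :
    18 * e + 21 * b ≤ 12 * h := by
  have h0 : 3 * h * (2 * h ^ 2 + 3 * e ^ 2) ≤ 3 * h * (2 * T) :=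
    mul_le_mul_of_nonneg_left hT (by linarith)
  have h1 : b * ((h + e) * (2 * h - e)) ≤ e * (2 * h ^ 2 - 2 * e * h + e ^ 2) := by
    nlinarith
  have h2 : 21 * (e * (2 * h ^ 2 - 2 * e * h + e ^ 2)) ≤
      (12 * h - 18 * e) * ((h + e) * (2 * h - e)) := by
    have e1 : (12 * h - 18 * e) * ((h + e) * (2 * h - e)) -
      21 * (e * (2 * h ^ 2 - 2 * e * h + e ^ 2)) =
      24 * h ^ 3 - 66 * h ^ 2 * e + 12 * h * e ^ 2 - 3 * e ^ 3 := by ring
    have hs : 0 ≤ 19 * h - 50 * e := by linarith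
    have h3 : 0 ≤ h ^ 2 * (19 * h - 50 * e) := mul_nonneg (sq_nonneg h) hs
    have h4 : 0 ≤ h * e * (19 * h - 50 * e) := mul_nonneg (mul_nonneg hh.le he) hs
    have h5 : 0 ≤ e ^ 2 * (19 * h - 50 * e) := mul_nonneg (sq_nonneg e) hs
    have h6 : 0 ≤ h ^ 3 := by positivity
    have h7 : 0 ≤ e ^ 3 := by positivity
    have h8 : 0 ≤ h ^ 2 * e := by positivity
    have h9 : 0 ≤ h * e ^ 2 := by positivity
    nlinarith
  by_contra hcon
  push Not at hcon
  have h3 : 0 < (h + e) * (2 * h - e) := mul_pos (by linarith) (by linarith)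
  have h4 : (12 * h - 18 * e) * ((h + e) * (2 * h - e)) < 21 * b * ((h + e) * (2 * h - e)) :=
    mul_lt_mul_of_pos_right (by linarith) h3
  nlinarith

theorem beta_bound2 {h e b T : ℤ} (hh : 0 < h) (he : 0 ≤ e)
    (heh : 2 * e ≤ h) (hT : h ^ 2 + 2 * e ^ 2 ≤ T)
    (hc : 2 * (3 * h * T - (h + e) ^ 3) ≤
      (3 * (h - b) - (h + e)) * ((h + e) * (3 * h) - (h + e) ^ 2)) :
    5 * b + 4 * e ≤ 3 * h := by
  have h0 : 3 * h * (h ^ 2 + 2 * e ^ 2) ≤ 3 * h * T :=
    mul_le_mul_of_nonneg_left hT (by linarith)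
  have h1 : (b * (h + e)) * (2 * h - e) ≤ (e * (h - e)) * (2 * h - e) := by
    nlinarith
  have h2 : b * (h + e) ≤ e * (h - e) := le_of_mul_le_mul_right h1 (by linarith)
  by_contra hcon
  push Not at hcon
  have h3 : (3 * h - 4 * e) * (h + e) < 5 * b * (h + e) :=
    mul_lt_mul_of_pos_right (by linarith) (by linarith)
  nlinarith [mul_nonneg hh.le (show (0 : ℤ) ≤ h - 2 * e by linarith), sq_nonneg e]

/-- the size of `k` in case A -/
theorem k_bound {h e k : ℤ} (hh : 9 ≤ h) (heh : 19 * h ≤ 50 * e) (he2 : e ≤ 2 * h)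
    (hk : (9 * h - 1) * k ≤ (h + e) * (h + e - 1)) : 9 * k ≤ 6 * e - 4 := by
  have h1 : 9 * ((h + e) * (h + e - 1)) ≤ (6 * e - 4) * (9 * h - 1) := by
    have e1 : (6 * e - 4) * (9 * h - 1) - 9 * ((h + e) * (h + e - 1)) =
      36 * e * h - 9 * h ^ 2 - 9 * e ^ 2 + 3 * e - 27 * h + 4 := by ring
    have h2 : 0 ≤ (50 * e - 19 * h) * (2 * h - e) := mul_nonneg (by linarith) (by linarith)
    nlinarith
  have h2 : (9 * k) * (9 * h - 1) ≤ (6 * e - 4) * (9 * h - 1) := by nlinarith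
  exact le_of_mul_le_mul_right h2 (by linarith)

theorem choose_cube {w w' : ℕ} (hw : w' ≤ w) :
    w'.choose 3 * w ^ 3 ≤ w.choose 3 * w' ^ 3 := by
  have key : ∀ x : ℕ, (x.choose 3 : ℤ) * 6 = x * (x - 1) * (x - 2) := by
    intro x
    induction x with
    | zero => simp
    | succ x ih =>
      have h1 := Nat.choose_succ_succ x 2
      have h2 : ∀ y : ℕ, (y.choose 2 : ℤ) * 2 = y * (y - 1) := by
        intro y
        induction y with
        | zero => simp
        | succ y ih2 =>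
          have h3 := Nat.choose_succ_succ y 1
          rw [Nat.choose_one_right] at h3
          have h4 : ((y + 1).choose 2 : ℤ) = y + y.choose 2 := by exact_mod_cast h3
          rw [h4]; push_cast; linarith
      have h5 : ((x + 1).choose 3 : ℤ) = x.choose 2 + x.choose 3 := by exact_mod_cast h1
      rw [h5]
      push_cast
      have := h2 x
      linarith
  have h6 : ((w'.choose 3 : ℤ) * 6) * w ^ 3 ≤ ((w.choose 3 : ℤ) * 6) * w' ^ 3 := by
    rw [key, key]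
    rcases Nat.lt_or_ge w' 3 with h | h
    · have h0 : ((w' : ℤ)) * (w' - 1) * (w' - 2) = 0 := by
        interval_cases w' <;> norm_num
      rw [h0, zero_mul]
      have := key w
      rw [← this]
      positivity
    · have hw1 : (3 : ℤ) ≤ w' := by exact_mod_cast h
      have hw2 : (w' : ℤ) ≤ w := by exact_mod_cast hw
      have hA : ((w' : ℤ) - 1) * w ≤ (w - 1) * w' := by nlinarith
      have hB : ((w' : ℤ) - 2) * w ≤ (w - 2) * w' := by nlinarith
      have hC : (((w' : ℤ) - 1) * w) * ((w' - 2) * w) ≤ ((w - 1) * w') * ((w - 2) * w') :=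
        mul_le_mul hA hB (mul_nonneg (by linarith) (by linarith))
          (mul_nonneg (by linarith) (by linarith))
      have hD := mul_le_mul_of_nonneg_left hC (show (0 : ℤ) ≤ (w' : ℤ) * w by positivity)
      nlinarith
  have h7 : (w'.choose 3 : ℤ) * w ^ 3 ≤ (w.choose 3 : ℤ) * w' ^ 3 := by nlinarith
  exact_mod_cast h7

/-- the final inequality of case A -/
theorem caseA_final {h e' k w t t' : ℤ} (hk : 1 ≤ k) (he' : 0 ≤ e') (heh : 2 * e' ≤ h) (hh : 2 ≤ h)
    (hw : w = 2 * h - e') (hk6 : 3 * k + 4 ≤ 6 * e') (hkw : k ≤ w)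
    (ht : w * (h - e') ≤ t)
    (htt : (t' - (w - k)) * w ^ 3 ≤ (t - w) * (w - k) ^ 3) :
    3 * k * (h - 2 * e') ≤ t - t' := by
  have hw0 : 0 < w := by linarith
  have hu : 0 ≤ h - e' - 1 := by linarith
  have h1 : 3 * (h - e' - 1) * k ≤ (3 * e' - 2) * w := by
    have h2 : (h - e' - 1) * (3 * k) ≤ (h - e' - 1) * (2 * (3 * e' - 2)) :=
      mul_le_mul_of_nonneg_left (by linarith) hu
    have h3 : (3 * e' - 2) * (2 * (h - e' - 1)) ≤ (3 * e' - 2) * w :=
      mul_le_mul_of_nonneg_left (by linarith) (by linarith)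
    linarith
  -- w³ (t - t') ≥ (t - w) (w³ - (w-k)³) + k w³
  have h2 : (t - w) * (w ^ 3 - (w - k) ^ 3) + k * w ^ 3 ≤ w ^ 3 * (t - t') := by
    nlinarith
  have h3 : 0 ≤ k * (w - k) := mul_nonneg (by linarith) (by linarith)
  have h4 : 3 * w * (k * (w - k)) ≤ w ^ 3 - (w - k) ^ 3 := by
    have e : w ^ 3 - (w - k) ^ 3 = 3 * w * (k * (w - k)) + k ^ 3 := by ring
    rw [e]
    have : (0 : ℤ) ≤ k ^ 3 := by positivity
    linarith
  have h5 : 0 ≤ w ^ 3 - (w - k) ^ 3 := by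
    have := mul_nonneg (show (0 : ℤ) ≤ 3 * w by linarith) h3
    linarith
  have h6 : w * (h - e' - 1) * (w ^ 3 - (w - k) ^ 3) ≤ (t - w) * (w ^ 3 - (w - k) ^ 3) :=
    mul_le_mul_of_nonneg_right (by nlinarith) h5
  have h7 : w * (h - e' - 1) * (3 * w * (k * (w - k))) ≤
      w * (h - e' - 1) * (w ^ 3 - (w - k) ^ 3) :=
    mul_le_mul_of_nonneg_left h4 (mul_nonneg hw0.le hu)
  have h8 : w * (h - e' - 1) * (3 * w * (k * (w - k))) + k * w ^ 3 ≤ w ^ 3 * (t - t') := by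
    linarith
  have h9 : w ^ 3 * (3 * k * (h - 2 * e')) ≤
      w * (h - e' - 1) * (3 * w * (k * (w - k))) + k * w ^ 3 := by
    have h10 : 0 ≤ (w ^ 2 * k) * ((3 * e' - 2) * w - 3 * (h - e' - 1) * k) :=
      mul_nonneg (by positivity) (by linarith)
    nlinarith
  have h11 : w ^ 3 * (3 * k * (h - 2 * e')) ≤ w ^ 3 * (t - t') := h9.trans h8
  exact le_of_mul_le_mul_left h11 (by positivity)

end Pool.Agent.Helper285.Lines
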