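import Mathlib

namespace Pool.Agent.Helper285.Lines

open Finset

open Classical in
/-- number of ordered pairs of points of `S` whose third point `-(x+y)` is in `S` -/
noncomputable def T {G : Type*} [AddCommGroup G] (S : Finset G) : ℕ :=
  ((S ×ˢ S).filter (fun p => -(p.1 + p.2) ∈ S)).card

/-- maximum of `T` over the `m`-subsets of `F_3^n` -/
noncomputable def F (n m : ℕ) : ℕ :=
  (powersetCard m (univ : Finset (Fin n → ZMod 3))).sup T

open Classical in
/-- indicator -/
noncomputable def tc_ind {G : Type*} (A : Finset G) (x : G) : ℤ := if x ∈ A then 1 else 0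

open Classical in
theorem tc_T {G : Type*} [AddCommGroup G] [Fintype G] (A : Finset G) :
    (T A : ℤ) = ∑ x : G, ∑ y : G, tc_ind A x * tc_ind A y * tc_ind A (-(x + y)) := by
  unfold T
  rw [Finset.card_filter]
  push_cast
  rw [Finset.sum_product]
  have h1 : ∀ x : G, ∑ y : G, tc_ind A x * tc_ind A y * tc_ind A (-(x + y))
      = if x ∈ A then ∑ y : G, (if y ∈ A then (if -(x + y) ∈ A then (1:ℤ) else 0) else 0) else 0 := by
    intro x
    by_cases hx : x ∈ A
    · simp only [hx, if_true]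
      refine Finset.sum_congr rfl fun y _ => ?_
      by_cases hy : y ∈ A <;> simp [tc_ind, hx, hy]
    · simp [tc_ind, hx]
  simp only [h1]
  rw [← Finset.sum_filter, Finset.filter_mem_eq_inter, Finset.univ_inter]
  refine Finset.sum_congr rfl fun x _ => ?_
  have h2 : ∀ f : G → ℤ, ∑ y ∈ A, f y = ∑ y : G, if y ∈ A then f y else 0 := by
    intro f
    rw [← Finset.sum_filter, Finset.filter_mem_eq_inter, Finset.univ_inter]
  exact h2 _

open Classical in
theorem T_compl {G : Type*} [AddCommGroup G] [Fintype G] (S W : Finset G)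
    (h : ∀ x, x ∈ W ↔ x ∉ S) :
    (T S : ℤ) = (Fintype.card G : ℤ) ^ 2 - 3 * (Fintype.card G : ℤ) * (W.card : ℤ)
      + 3 * (W.card : ℤ) ^ 2 - (T W : ℤ) := by
  have hs : ∀ x, tc_ind S x = 1 - tc_ind W x := by
    intro x
    by_cases hx : x ∈ S
    · have : x ∉ W := fun hw => (h x).1 hw hx
      simp [tc_ind, hx, this]
    · have : x ∈ W := (h x).2 hx
      simp [tc_ind, hx, this]
  have hw : ∑ x : G, tc_ind W x = (W.card : ℤ) := by
    unfold tc_ind
    rw [← Finset.sum_filter, Finset.filter_mem_eq_inter, Finset.univ_inter]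
    simp
  have hr : ∀ x : G, ∑ y : G, tc_ind W (-(x + y)) = (W.card : ℤ) := by
    intro x
    rw [← hw]
    exact ((Equiv.addLeft x).trans (Equiv.neg G)).sum_comp (fun z => tc_ind W z)
  have hl : ∀ y : G, ∑ x : G, tc_ind W (-(x + y)) = (W.card : ℤ) := by
    intro y
    rw [← hw]
    exact ((Equiv.addRight y).trans (Equiv.neg G)).sum_comp (fun z => tc_ind W z)
  rw [tc_T S, tc_T W]
  have e : ∀ x y : G, tc_ind S x * tc_ind S y * tc_ind S (-(x + y))
      = 1 - tc_ind W x - tc_ind W y - tc_ind W (-(x + y)) + tc_ind W x * tc_ind W y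
        + tc_ind W x * tc_ind W (-(x + y)) + tc_ind W y * tc_ind W (-(x + y))
        - tc_ind W x * tc_ind W y * tc_ind W (-(x + y)) := by
    intro x y
    rw [hs, hs, hs]
    ring
  simp only [e, Finset.sum_add_distrib, Finset.sum_sub_distrib]
  have a1 : ∑ _x : G, ∑ _y : G, (1 : ℤ) = (Fintype.card G : ℤ) ^ 2 := by
    simp [sq]
  have a2 : ∑ x : G, ∑ _y : G, tc_ind W x = (Fintype.card G : ℤ) * W.card := by
    simp only [Finset.sum_const, Finset.card_univ, nsmul_eq_mul]
    rw [← Finset.mul_sum, hw]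
  have a3 : ∑ _x : G, ∑ y : G, tc_ind W y = (Fintype.card G : ℤ) * W.card := by
    simp only [hw, Finset.sum_const, Finset.card_univ, nsmul_eq_mul]
  have a4 : ∑ x : G, ∑ y : G, tc_ind W (-(x + y)) = (Fintype.card G : ℤ) * W.card := by
    simp only [hr, Finset.sum_const, Finset.card_univ, nsmul_eq_mul]
  have a5 : ∑ x : G, ∑ y : G, tc_ind W x * tc_ind W y = (W.card : ℤ) ^ 2 := by
    simp only [← Finset.mul_sum, hw]
    rw [← Finset.sum_mul, hw, sq]
  have a6 : ∑ x : G, ∑ y : G, tc_ind W x * tc_ind W (-(x + y)) = (W.card : ℤ) ^ 2 := by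
    simp only [← Finset.mul_sum, hr]
    rw [← Finset.sum_mul, hw, sq]
  have a7 : ∑ x : G, ∑ y : G, tc_ind W y * tc_ind W (-(x + y)) = (W.card : ℤ) ^ 2 := by
    rw [Finset.sum_comm]
    simp only [← Finset.mul_sum, hl]
    rw [← Finset.sum_mul, hw, sq]
  rw [a1, a2, a3, a4, a5, a6, a7]
  ring

theorem T_eq_aux {G : Type*} [AddCommGroup G] [DecidableEq G] (S : Finset G) :
    T S = ((S ×ˢ S).filter (fun p => -(p.1 + p.2) ∈ S)).card := by
  unfold T
  congr 1
  exact Finset.filter_congr_decidable _ _ _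

theorem T_erase_eq {G : Type*} [AddCommGroup G] [DecidableEq G] (h3 : ∀ x : G, x + x + x = 0)
    (S : Finset G) (x : G) (hx : x ∈ S) :
    T S + 2 = T (S.erase x) + 3 * (S.filter (fun y => -(x + y) ∈ S)).card := by
  rw [T_eq_aux, T_eq_aux]
  set P := (S ×ˢ S).filter (fun p => -(p.1 + p.2) ∈ S) with hP
  set r := (S.filter (fun y => -(x + y) ∈ S)).card with hr
  have hxx : -(x + x) = x := by
    have := h3 x
    rw [neg_eq_iff_add_eq_zero]
    exact this
  have memP : ∀ p : G × G, p ∈ P ↔ (p.1 ∈ S ∧ p.2 ∈ S) ∧ -(p.1 + p.2) ∈ S := by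
    intro p
    rw [hP, mem_filter, mem_product]
  have hmem : (x, x) ∈ P := by
    rw [memP]
    exact ⟨⟨hx, hx⟩, by rw [hxx]; exact hx⟩
  have hA : (P.filter (fun p => p.1 = x)).card = r := by
    apply Finset.card_nbij' (fun p => p.2) (fun y => (x, y))
    · intro p hp
      simp only [coe_filter, Set.mem_ofPred_eq, memP] at hp ⊢
      obtain ⟨⟨⟨h1, h2⟩, h4⟩, h5⟩ := hp
      rw [h5] at h4
      exact ⟨h2, h4⟩
    · intro y hy
      simp only [coe_filter, Set.mem_ofPred_eq, memP] at hy ⊢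
      exact ⟨⟨⟨hx, hy.1⟩, hy.2⟩, trivial⟩
    · intro p hp
      simp only [coe_filter, Set.mem_ofPred_eq] at hp
      exact Prod.ext hp.2.symm rfl
    · intro y hy
      rfl
  have hB : (P.filter (fun p => p.2 = x)).card = r := by
    apply Finset.card_nbij' (fun p => p.1) (fun y => (y, x))
    · intro p hp
      simp only [coe_filter, Set.mem_ofPred_eq, memP] at hp ⊢
      obtain ⟨⟨⟨h1, h2⟩, h4⟩, h5⟩ := hp
      rw [h5, add_comm] at h4
      exact ⟨h1, h4⟩
    · intro y hy
      simp only [coe_filter, Set.mem_ofPred_eq, memP] at hy ⊢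
      refine ⟨⟨⟨hy.1, hx⟩, ?_⟩, trivial⟩
      rw [add_comm]; exact hy.2
    · intro p hp
      simp only [coe_filter, Set.mem_ofPred_eq] at hp
      exact Prod.ext rfl hp.2.symm
    · intro y hy
      rfl
  have hC : (P.filter (fun p => -(p.1 + p.2) = x)).card = r := by
    apply Finset.card_nbij' (fun p => p.1) (fun y => (y, -(x + y)))
    · intro p hp
      simp only [coe_filter, Set.mem_ofPred_eq, memP] at hp ⊢
      obtain ⟨⟨⟨h1, h2⟩, h4⟩, h5⟩ := hp
      refine ⟨h1, ?_⟩
      rw [← h5]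
      have : -(-(p.1 + p.2) + p.1) = p.2 := by abel
      rw [this]; exact h2
    · intro y hy
      simp only [coe_filter, Set.mem_ofPred_eq, memP] at hy ⊢
      have e : -(y + -(x + y)) = x := by abel
      refine ⟨⟨⟨hy.1, hy.2⟩, ?_⟩, e⟩
      rw [e]; exact hx
    · intro p hp
      simp only [coe_filter, Set.mem_ofPred_eq] at hp
      refine Prod.ext rfl ?_
      show -(x + p.1) = p.2
      rw [← hp.2]
      abel
    · intro y hy
      rfl
  have hP0 : (P.filter (fun p => p.1 ≠ x ∧ p.2 ≠ x ∧ -(p.1 + p.2) ≠ x)) =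
      ((S.erase x ×ˢ S.erase x).filter (fun p => -(p.1 + p.2) ∈ S.erase x)) := by
    ext p
    rw [mem_filter, memP, mem_filter, mem_product, mem_erase, mem_erase, mem_erase]
    tauto
  have key : ∀ p ∈ P, 1 + 2 * (if p = (x, x) then 1 else 0) =
      (if (p.1 ≠ x ∧ p.2 ≠ x ∧ -(p.1 + p.2) ≠ x) then 1 else 0) + (if p.1 = x then 1 else 0)
        + (if p.2 = x then 1 else 0) + (if -(p.1 + p.2) = x then 1 else 0) := by
    intro p hp
    by_cases h1 : p.1 = x
    · by_cases h2 : p.2 = x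
      · have e : p = (x, x) := Prod.ext h1 h2
        subst e
        simp [hxx]
      · have h3' : -(p.1 + p.2) ≠ x := by
          intro h
          apply h2
          rw [h1] at h
          have e1 : p.2 = -(x + x) := by
            have : -(x + p.2) = x := h
            rw [← this]
            rw [this]
            have h6 : p.2 = -x + -(-(x + p.2)) := by abel
            rw [this] at h6
            rw [h6]; abel
          rw [e1, hxx]
        have h4 : p ≠ (x, x) := fun h => h2 (by rw [h])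
        rw [if_neg h4, if_pos h1, if_neg h2, if_neg h3', if_neg (fun h => h.1 h1)]
    · have h4 : p ≠ (x, x) := fun h => h1 (by rw [h])
      by_cases h2 : p.2 = x
      · have h3' : -(p.1 + p.2) ≠ x := by
          intro h
          apply h1
          rw [h2] at h
          have h6 : p.1 = -x + -(-(p.1 + x)) := by abel
          rw [h] at h6
          rw [h6, ← hxx]
          rw [hxx]
          have : -x + -x = -(x + x) := by abel
          rw [this, hxx]
        rw [if_neg h4, if_neg h1, if_pos h2, if_neg h3', if_neg (fun h => h.2.1 h2)]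
      · by_cases h5 : -(p.1 + p.2) = x
        · rw [if_neg h4, if_neg h1, if_neg h2, if_pos h5, if_neg (fun h => h.2.2 h5)]
        · rw [if_neg h4, if_neg h1, if_neg h2, if_neg h5, if_pos ⟨h1, h2, h5⟩]
  have hsum := Finset.sum_congr rfl key
  rw [Finset.sum_add_distrib, Finset.sum_add_distrib, Finset.sum_add_distrib,
    Finset.sum_add_distrib, ← Finset.mul_sum, ← Finset.card_filter, ← Finset.card_filter,
    ← Finset.card_filter, ← Finset.card_filter, ← Finset.card_filter, hA, hB, hC, hP0,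
    ← Finset.card_eq_sum_ones] at hsum
  have hone : (P.filter (fun p => p = (x, x))).card = 1 := by
    rw [Finset.filter_eq', if_pos hmem, Finset.card_singleton]
  rw [hone] at hsum
  omega

theorem T_small {G : Type*} [AddCommGroup G] (h3 : ∀ x : G, x + x + x = 0)
    (W : Finset G) (hW : W.card ≤ 2) : T W ≤ W.card := by
  classical
  rw [T_eq_aux]
  apply Finset.card_le_card_of_injOn (fun p => p.1)
  · intro p hp
    simp only [coe_filter, Set.mem_ofPred_eq, mem_product] at hp
    exact hp.1.1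
  · have key : ∀ p : G × G, p ∈ (W ×ˢ W).filter (fun p => -(p.1 + p.2) ∈ W) → p.2 = p.1 := by
      intro p hp
      rw [mem_filter, mem_product] at hp
      by_contra hne
      have h12 : p.1 ≠ p.2 := fun h => hne h.symm
      have h13 : p.1 ≠ -(p.1 + p.2) := by
        intro h
        apply h12
        have e := h3 p.1
        have h6 : p.2 = -p.1 + -(-(p.1 + p.2)) := by abel
        rw [← h] at h6
        rw [h6]
        have : p.1 - (-p.1 + -p.1) = p.1 + p.1 + p.1 := by abel
        rw [e] at this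
        exact sub_eq_zero.1 this
      have h23 : p.2 ≠ -(p.1 + p.2) := by
        intro h
        apply h12
        have e := h3 p.2
        have h6 : p.1 = -p.2 + -(-(p.1 + p.2)) := by abel
        rw [← h] at h6
        rw [h6]
        have : (-p.2 + -p.2) - p.2 = -(p.2 + p.2 + p.2) := by abel
        rw [e, neg_zero] at this
        exact sub_eq_zero.1 this
      have hsub : ({p.1, p.2, -(p.1 + p.2)} : Finset G) ⊆ W := by
        intro z hz
        simp only [mem_insert, mem_singleton] at hz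
        rcases hz with rfl | rfl | rfl
        · exact hp.1.1
        · exact hp.1.2
        · exact hp.2
      have := Finset.card_le_card hsub
      rw [Finset.card_eq_three.2 ⟨_, _, _, h12, h13, h23, rfl⟩] at this
      omega
    intro p hp q hq h
    have h1 := key p hp
    have h2 := key q hq
    exact Prod.ext h (by rw [h1, h2]; exact h)

theorem T_sum {G : Type*} [AddCommGroup G] [DecidableEq G] (W : Finset G) :
    ∑ x ∈ W, (W.filter (fun y => -(x + y) ∈ W)).card = T W := by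
  rw [T_eq_aux, Finset.card_filter, Finset.sum_product]
  refine Finset.sum_congr rfl fun x _ => ?_
  rw [Finset.card_filter]

theorem T_one {G : Type*} [AddCommGroup G] [DecidableEq G] (h3 : ∀ x : G, x + x + x = 0)
    (W : Finset G) (hW : 0 < W.card) :
    ∃ x ∈ W, ((T (W.erase x) : ℤ) - (W.card - 1 : ℤ)) * (W.card.choose 3) ≤
      ((T W : ℤ) - W.card) * ((W.card - 1).choose 3) := by
  obtain ⟨x, hx, hr⟩ : ∃ x ∈ W, T W ≤ (W.filter (fun y => -(x + y) ∈ W)).card * W.card := by
    by_contra hcon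
    push Not at hcon
    have h1 := Finset.sum_lt_sum_of_nonempty (Finset.card_pos.1 hW) hcon
    rw [← Finset.sum_mul, T_sum, Finset.sum_const, smul_eq_mul, mul_comm] at h1
    exact lt_irrefl _ h1
  refine ⟨x, hx, ?_⟩
  have h1 := T_erase_eq h3 W x hx
  set r := (W.filter (fun y => -(x + y) ∈ W)).card with hrdef
  obtain ⟨w, hw⟩ : ∃ w, W.card = w + 1 := ⟨W.card - 1, by omega⟩
  rw [hw] at hr ⊢
  have h2 : ((w + 1).choose 3) * (w - 2 : ℤ) = (w + 1) * (w.choose 3 : ℤ) := by
    rcases le_or_gt 3 w with h | h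
    · have h4 := Nat.add_one_mul_choose_eq w 2
      have h5 := Nat.choose_succ_succ w 2
      have h6 := Nat.choose_succ_right_eq w 2
      -- (w+1) * C(w,2) = C(w+1,3) * 3 ; C(w,3)*3 = C(w,2)*(w-2)
      have h7 : ((w + 1 : ℤ)) * (w.choose 2 : ℤ) = ((w + 1).choose 3 : ℤ) * 3 := by
        exact_mod_cast h4
      have h8 : ((w.choose 3 : ℤ)) * 3 = (w.choose 2 : ℤ) * (w - 2 : ℤ) := by
        have h9 : ((w - 2 : ℕ) : ℤ) = (w : ℤ) - 2 := by
          rw [Nat.cast_sub (by omega)]; norm_num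
        rw [← h9]
        exact_mod_cast h6
      have h10 : (3 : ℤ) * (((w + 1).choose 3) * (w - 2 : ℤ)) = 3 * ((w + 1) * (w.choose 3 : ℤ)) := by
        linear_combination (2 - (w : ℤ)) * h7 - (w + 1 : ℤ) * h8
      linarith
    · interval_cases w <;> simp [Nat.choose]
  have h11 : (T W : ℤ) + 2 = T (W.erase x) + 3 * r := by exact_mod_cast h1
  have h12 : (T W : ℤ) ≤ r * (w + 1) := by exact_mod_cast hr
  have e1 : (T (W.erase x) : ℤ) = T W + 2 - 3 * r := by linarith
  rw [e1]
  have hc : (0 : ℤ) ≤ ((w + 1).choose 3 : ℤ) := by positivity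
  have hwp : (0 : ℤ) < (w : ℤ) + 1 := by positivity
  have e2 : ((w + 1 : ℕ) : ℤ) = (w : ℤ) + 1 := by push_cast; ring
  rw [e2]
  have e3 : w + 1 - 1 = w := by omega
  rw [e3]
  have h13 : ((w : ℤ) + 1) * (((T W : ℤ) + 2 - 3 * r - (w + 1 - 1)) * ((w + 1).choose 3 : ℤ)) ≤
      ((w : ℤ) + 1) * (((T W : ℤ) - (w + 1)) * (w.choose 3 : ℤ)) := by
    have h14 : ((w : ℤ) + 1) * (((T W : ℤ) - (w + 1)) * (w.choose 3 : ℤ)) =
        ((T W : ℤ) - (w + 1)) * (((w + 1).choose 3) * (w - 2 : ℤ)) := by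
      rw [h2]; ring
    rw [h14]
    have h15 : ((T W : ℤ) - (w + 1)) * (((w + 1).choose 3) * (w - 2 : ℤ)) -
        ((w : ℤ) + 1) * (((T W : ℤ) + 2 - 3 * r - (w + 1 - 1)) * ((w + 1).choose 3 : ℤ)) =
        3 * ((r * (w + 1) : ℤ) - T W) * ((w + 1).choose 3 : ℤ) := by ring
    have h16 : (0 : ℤ) ≤ 3 * ((r * (w + 1) : ℤ) - T W) * ((w + 1).choose 3 : ℤ) :=
      mul_nonneg (mul_nonneg (by norm_num) (by linarith)) hc
    linarith
  exact le_of_mul_le_mul_left h13 hwp

theorem T_remove {G : Type*} [AddCommGroup G] (h3 : ∀ x : G, x + x + x = 0)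
    (W : Finset G) (w' : ℕ) (hw : w' ≤ W.card) :
    ∃ W' ⊆ W, W'.card = w' ∧
      ((T W' : ℤ) - w') * (W.card.choose 3) ≤ ((T W : ℤ) - W.card) * (w'.choose 3) := by
  classical
  obtain ⟨d, hd⟩ : ∃ d, W.card = w' + d := ⟨W.card - w', by omega⟩
  induction d generalizing W with
  | zero => exact ⟨W, Subset.refl _, by omega, by rw [hd, add_zero]⟩
  | succ d ih =>
    obtain ⟨x, hx, h1⟩ := T_one h3 W (by omega)
    have hc : (W.erase x).card = W.card - 1 := Finset.card_erase_of_mem hx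
    obtain ⟨W', hW', hcard, h2⟩ := ih (W.erase x) (by omega) (by omega)
    refine ⟨W', hW'.trans (Finset.erase_subset _ _), hcard, ?_⟩
    rcases Nat.eq_zero_or_pos ((W.card - 1).choose 3) with h0 | hpos
    · have h5 : W.card - 1 < 3 := by
        by_contra hcon
        have := Nat.choose_pos (show 3 ≤ W.card - 1 by omega)
        omega
      have h6 : w'.choose 3 = 0 := Nat.choose_eq_zero_of_lt (by omega)
      rw [h6]
      have h7 := T_small h3 W' (by omega)
      have h8 : (T W' : ℤ) - w' ≤ 0 := by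
        have : (T W' : ℤ) ≤ W'.card := by exact_mod_cast h7
        rw [hcard] at this
        linarith
      have h9 : (0 : ℤ) ≤ (W.card.choose 3 : ℤ) := by positivity
      have := mul_nonpos_of_nonpos_of_nonneg h8 h9
      simpa using this
    · rw [hc] at h2
      have hcast : ((W.card - 1 : ℕ) : ℤ) = (W.card : ℤ) - 1 := by
        rw [Nat.cast_sub (by omega)]; norm_num
      rw [hcast] at h2
      have hp : (0 : ℤ) < ((W.card - 1).choose 3 : ℤ) := by exact_mod_cast hpos
      have hq : (0 : ℤ) ≤ (W.card.choose 3 : ℤ) := by positivity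
      have hq' : (0 : ℤ) ≤ (w'.choose 3 : ℤ) := by positivity
      apply le_of_mul_le_mul_left _ hp
      calc ((W.card - 1).choose 3 : ℤ) * (((T W' : ℤ) - w') * (W.card.choose 3))
          = (((T W' : ℤ) - w') * ((W.card - 1).choose 3)) * (W.card.choose 3) := by ring
        _ ≤ (((T (W.erase x) : ℤ) - (W.card - 1)) * (w'.choose 3)) * (W.card.choose 3) :=
            mul_le_mul_of_nonneg_right h2 hq
        _ = (((T (W.erase x) : ℤ) - (W.card - 1)) * (W.card.choose 3)) * (w'.choose 3) := by ring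
        _ ≤ (((T W : ℤ) - W.card) * ((W.card - 1).choose 3)) * (w'.choose 3) :=
            mul_le_mul_of_nonneg_right h1 hq'
        _ = _ := by ring

theorem T_proj_set {G : Type*} [AddCommGroup G] (S : Finset G) :
    ∃ P : Finset (G × G), T S = P.card ∧ ∀ p, p ∈ P ↔ p.1 ∈ S ∧ p.2 ∈ S ∧ -(p.1 + p.2) ∈ S :=
  ⟨_, rfl, by intro p; simp [and_assoc]⟩

theorem T_proj_num (N a b d : ℕ) (h1 : N ≤ (a + 1) * (b + 1)) (h2 : N ≤ (a + 1) * (d + 1))
    (h3 : N ≤ (b + 1) * (d + 1)) : N ≤ 1 + (a * b + b * d + a * d) := by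
  rcases Nat.eq_zero_or_pos d with h | h
  · subst h
    rcases Nat.eq_zero_or_pos a with h' | h'
    · subst h'
      nlinarith
    · nlinarith
  · nlinarith

theorem T_proj {G G' : Type*} [AddCommGroup G] [AddCommGroup G'] [DecidableEq G']
    (f : G →+ G') (S : Finset G) :
    T S ≤ T (S.image f) + 3 * (S.card - (S.image f).card) ^ 2 := by
  classical
  obtain ⟨U, hU⟩ : ∃ U, U = S.image f := ⟨_, rfl⟩
  rw [← hU]
  obtain ⟨c, hc⟩ : ∃ c : G' → ℕ, ∀ y, c y = (S.filter (fun x => f x = y)).card :=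
    ⟨_, fun _ => rfl⟩
  have hc1 : ∀ y ∈ U, 1 ≤ c y := by
    intro y hy
    rw [hU, mem_image] at hy
    obtain ⟨x, hx, hxy⟩ := hy
    rw [hc]
    exact Finset.card_pos.2 ⟨x, mem_filter.2 ⟨hx, hxy⟩⟩
  obtain ⟨e, he⟩ : ∃ e : G' → ℕ, ∀ y, e y = c y - 1 := ⟨_, fun _ => rfl⟩
  have hce : ∀ y ∈ U, c y = e y + 1 := by
    intro y hy
    have := hc1 y hy
    rw [he]
    omega
  have hk : ∑ y ∈ U, e y = S.card - U.card := by
    have h1 := Finset.card_eq_sum_card_image f S
    rw [← hU] at h1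
    have h2 : ∑ y ∈ U, (S.filter (fun x => f x = y)).card = ∑ y ∈ U, (e y + 1) := by
      apply Finset.sum_congr rfl
      intro y hy
      rw [← hc, hce y hy]
    rw [h2, Finset.sum_add_distrib] at h1
    simp only [Finset.sum_const, smul_eq_mul, mul_one] at h1
    omega
  have hsq : ∑ r ∈ U ×ˢ U, e r.1 * e r.2 = (S.card - U.card) ^ 2 := by
    rw [Finset.sum_product, sq, ← hk, Finset.sum_mul_sum]
  obtain ⟨P, hP, hPm⟩ := T_proj_set S
  obtain ⟨Q, hQ, hQm⟩ := T_proj_set U
  rw [hP, hQ]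
  have hmaps : ∀ p ∈ P, (f p.1, f p.2) ∈ Q := by
    intro p hp
    rw [hPm] at hp
    rw [hQm, hU]
    refine ⟨mem_image_of_mem f hp.1, mem_image_of_mem f hp.2.1, ?_⟩
    have := mem_image_of_mem f hp.2.2
    rwa [map_neg, map_add] at this
  rw [Finset.card_eq_sum_card_fiberwise (f := fun p : G × G => (f p.1, f p.2)) hmaps]
  have hN : ∀ q ∈ Q, (P.filter (fun p => (f p.1, f p.2) = q)).card ≤
      1 + (e q.1 * e q.2 + e q.2 * e (-(q.1 + q.2)) + e q.1 * e (-(q.1 + q.2))) := by
    intro q hq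
    rw [hQm] at hq
    apply T_proj_num
    · rw [← hce _ hq.1, ← hce _ hq.2.1, hc, hc, ← Finset.card_product]
      apply Finset.card_le_card
      intro p hp
      rw [mem_filter, hPm] at hp
      have h1 : f p.1 = q.1 := congrArg Prod.fst hp.2
      have h2 : f p.2 = q.2 := congrArg Prod.snd hp.2
      rw [mem_product, mem_filter, mem_filter]
      exact ⟨⟨hp.1.1, h1⟩, hp.1.2.1, h2⟩
    · rw [← hce _ hq.1, ← hce _ hq.2.2, hc, hc, ← Finset.card_product]
      apply Finset.card_le_card_of_injOn (fun p => (p.1, -(p.1 + p.2)))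
      · intro p hp
        rw [Finset.mem_coe, mem_filter, hPm] at hp
        have h1 : f p.1 = q.1 := congrArg Prod.fst hp.2
        have h2 : f p.2 = q.2 := congrArg Prod.snd hp.2
        rw [Finset.mem_coe, mem_product, mem_filter, mem_filter]
        refine ⟨⟨hp.1.1, h1⟩, hp.1.2.2, ?_⟩
        show f (-(p.1 + p.2)) = _
        rw [map_neg, map_add, h1, h2]
      · intro p _ p' _ h
        have h1 : p.1 = p'.1 := (Prod.ext_iff.1 h).1
        have h2 : -(p.1 + p.2) = -(p'.1 + p'.2) := congrArg Prod.snd h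
        rw [h1] at h2
        exact Prod.ext h1 (add_left_cancel (neg_injective h2))
    · rw [← hce _ hq.2.1, ← hce _ hq.2.2, hc, hc, ← Finset.card_product]
      apply Finset.card_le_card_of_injOn (fun p => (p.2, -(p.1 + p.2)))
      · intro p hp
        rw [Finset.mem_coe, mem_filter, hPm] at hp
        have h1 : f p.1 = q.1 := congrArg Prod.fst hp.2
        have h2 : f p.2 = q.2 := congrArg Prod.snd hp.2
        rw [Finset.mem_coe, mem_product, mem_filter, mem_filter]
        refine ⟨⟨hp.1.2.1, h2⟩, hp.1.2.2, ?_⟩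
        show f (-(p.1 + p.2)) = _
        rw [map_neg, map_add, h1, h2]
      · intro p _ p' _ h
        have h1 : p.2 = p'.2 := congrArg Prod.fst h
        have h2 : -(p.1 + p.2) = -(p'.1 + p'.2) := congrArg Prod.snd h
        rw [h1] at h2
        exact Prod.ext (add_right_cancel (neg_injective h2)) h1
  refine (Finset.sum_le_sum hN).trans ?_
  rw [Finset.sum_add_distrib, Finset.sum_add_distrib, Finset.sum_add_distrib]
  simp only [Finset.sum_const, smul_eq_mul, mul_one]
  have hgen : ∀ φ : G' × G' → G' × G', (∀ q ∈ Q, φ q ∈ U ×ˢ U) → Set.InjOn φ Q →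
      ∑ q ∈ Q, e (φ q).1 * e (φ q).2 ≤ (S.card - U.card) ^ 2 := by
    intro φ h1 h2
    rw [← hsq, ← Finset.sum_image (f := fun r : G' × G' => e r.1 * e r.2) h2]
    apply Finset.sum_le_sum_of_subset
    intro r hr
    rw [mem_image] at hr
    obtain ⟨q, hq, rfl⟩ := hr
    exact h1 q hq
  have h1 := hgen id (by
    intro q hq
    rw [hQm] at hq
    exact mem_product.2 ⟨hq.1, hq.2.1⟩) (Function.injective_id.injOn)
  have h2 := hgen (fun q => (q.2, -(q.1 + q.2))) (by
    intro q hq
    rw [hQm] at hq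
    exact mem_product.2 ⟨hq.2.1, hq.2.2⟩) (by
    intro p _ p' _ h
    have h1 : p.2 = p'.2 := congrArg Prod.fst h
    have h2 : -(p.1 + p.2) = -(p'.1 + p'.2) := congrArg Prod.snd h
    rw [h1] at h2
    exact Prod.ext (add_right_cancel (neg_injective h2)) h1)
  have h3 := hgen (fun q => (q.1, -(q.1 + q.2))) (by
    intro q hq
    rw [hQm] at hq
    exact mem_product.2 ⟨hq.1, hq.2.2⟩) (by
    intro p _ p' _ h
    have h1 : p.1 = p'.1 := (Prod.ext_iff.1 h).1
    have h2 : -(p.1 + p.2) = -(p'.1 + p'.2) := congrArg Prod.snd h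
    rw [h1] at h2
    exact Prod.ext h1 (add_left_cancel (neg_injective h2)))
  simp only [id] at h1 h2 h3
  omega

open Classical in
theorem exists_dir {G : Type*} [AddCommGroup G] [Module (ZMod 3) G] [Fintype G]
    (hG : 1 < Fintype.card G) (S : Finset G) :
    ∃ v : G, v ≠ 0 ∧
      (Fintype.card G - 1) *
        (S.card - (S.image (Submodule.mkQ (Submodule.span (ZMod 3) {v}))).card)
        ≤ S.card * (S.card - 1) := by
  set C : G → Finset G := fun v => S.filter (fun x => x - v ∈ S) with hC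
  -- the double count
  have hcount : ∑ v ∈ (univ : Finset G).erase 0, (C v).card = S.card * (S.card - 1) := by
    have h1 : ∑ v ∈ (univ : Finset G).erase 0, (C v).card =
        ∑ v ∈ (univ : Finset G).erase 0, ∑ x ∈ S, if x - v ∈ S then 1 else 0 := by
      refine Finset.sum_congr rfl fun v _ => ?_
      rw [hC]
      simp only
      rw [Finset.card_filter]
    rw [h1, Finset.sum_comm, ← smul_eq_mul, ← Finset.sum_const]
    refine Finset.sum_congr rfl fun x hx => ?_
    rw [← Finset.card_filter, ← Finset.card_erase_of_mem hx]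
    refine Finset.card_bij' (fun v _ => x - v) (fun y _ => x - y) ?_ ?_ ?_ ?_
    · intro v hv
      simp only [Finset.mem_filter, Finset.mem_erase, Finset.mem_univ, and_true] at hv ⊢
      exact ⟨fun h => hv.1 (by simpa using h), hv.2⟩
    · intro y hy
      simp only [Finset.mem_filter, Finset.mem_erase, Finset.mem_univ, and_true] at hy ⊢
      exact ⟨fun h => hy.1 (sub_eq_zero.mp h).symm, by simpa using hy.2⟩
    · intro v _; simp
    · intro y _; simp
  have hexists : ∃ v : G, v ≠ 0 ∧ (Fintype.card G - 1) * (C v).card ≤ S.card * (S.card - 1) := by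
    by_contra hcon
    push Not at hcon
    have hne : ((univ : Finset G).erase 0).Nonempty := by
      rw [← Finset.card_pos, Finset.card_erase_of_mem (Finset.mem_univ _), Finset.card_univ]
      omega
    have h1 : ∑ v ∈ (univ : Finset G).erase 0, S.card * (S.card - 1) <
        ∑ v ∈ (univ : Finset G).erase 0, (Fintype.card G - 1) * (C v).card := by
      refine Finset.sum_lt_sum_of_nonempty hne fun v hv => ?_
      exact hcon v (Finset.ne_of_mem_erase hv)
    rw [Finset.sum_const, smul_eq_mul, ← Finset.mul_sum, hcount,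
      Finset.card_erase_of_mem (Finset.mem_univ _), Finset.card_univ] at h1
    exact lt_irrefl _ h1
  obtain ⟨v, hv0, hv⟩ := hexists
  refine ⟨v, hv0, le_trans (Nat.mul_le_mul_left _ ?_) hv⟩
  -- injectivity on the complement
  have hinj : Set.InjOn (Submodule.mkQ (Submodule.span (ZMod 3) {v})) ((S \ C v : Finset G) : Set G) := by
    intro x hx y hy hxy
    rw [Finset.mem_coe, Finset.mem_sdiff] at hx hy
    have h1 : x - y ∈ Submodule.span (ZMod 3) {v} := by
      rw [Submodule.mkQ_apply, Submodule.mkQ_apply, Submodule.Quotient.eq] at hxy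
      exact hxy
    rw [Submodule.mem_span_singleton] at h1
    obtain ⟨c, hc⟩ := h1
    have hx2 : x - v ∉ S := fun h => hx.2 (by simp only [hC, Finset.mem_filter]; exact ⟨hx.1, h⟩)
    have hy2 : y - v ∉ S := fun h => hy.2 (by simp only [hC, Finset.mem_filter]; exact ⟨hy.1, h⟩)
    have h3v : v + v + v = 0 := by
      have : ((3 : ℕ) : ZMod 3) • v = 0 := by
        rw [ZMod.natCast_self, zero_smul]
      rw [Nat.cast_smul_eq_nsmul] at this
      rw [← this]
      abel
    fin_cases c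
    · have : x - y = 0 := by rw [← hc]; exact zero_smul _ _
      exact sub_eq_zero.mp this
    · exfalso
      have : x - y = v := by rw [← hc]; exact one_smul _ _
      apply hx2
      have h4 : x - v = y := by rw [← this]; abel
      rw [h4]; exact hy.1
    · exfalso
      have h5 : x - y = v + v := by
        rw [← hc]
        show ((2 : ZMod 3)) • v = v + v
        exact two_smul _ _
      apply hy2
      have h4 : y - v = x := by
        have : x = y + (v + v) := by rw [← h5]; abel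
        rw [this]
        have h6 : v + v = -v := eq_neg_of_add_eq_zero_left h3v
        rw [h6]; abel
      rw [h4]; exact hx.1
  have hcard := Finset.card_image_of_injOn hinj
  have hsub : ((S \ C v).image (Submodule.mkQ (Submodule.span (ZMod 3) {v}))).card ≤
      (S.image (Submodule.mkQ (Submodule.span (ZMod 3) {v}))).card :=
    Finset.card_le_card (Finset.image_subset_image Finset.sdiff_subset)
  have hsd := Finset.card_sdiff_add_card_eq_card (Finset.filter_subset (fun x => x - v ∈ S) S)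
  have hsd' : (S \ C v).card + (C v).card = S.card := hsd
  omega

theorem T_sections {G : Type*} [AddCommGroup G] (f : G →+ ZMod 3) (S : Finset G) (i : ZMod 3) :
    T S ≤ T (S.filter (fun x => f x = i)) + T (S.filter (fun x => f x = i + 1))
      + T (S.filter (fun x => f x = i + 2))
      + 6 * (S.filter (fun x => f x = i + 1)).card * (S.filter (fun x => f x = i + 2)).card := by
  classical
  have hdec : ∀ a b i : ZMod 3, (a = i ∧ b = i ∧ -(a + b) = i) ∨
      (a = i + 1 ∧ b = i + 1 ∧ -(a + b) = i + 1) ∨ (a = i + 2 ∧ b = i + 2 ∧ -(a + b) = i + 2) ∨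
      (a = i + 1 ∧ b = i + 2) ∨ (b = i + 1 ∧ a = i + 2) ∨
      (b = i + 1 ∧ -(a + b) = i + 2) ∨ (a = i + 1 ∧ -(a + b) = i + 2) ∨
      (-(a + b) = i + 1 ∧ b = i + 2) ∨ (-(a + b) = i + 1 ∧ a = i + 2) := by decide
  set S0 := S.filter (fun x => f x = i) with hS0
  set S1 := S.filter (fun x => f x = i + 1) with hS1
  set S2 := S.filter (fun x => f x = i + 2) with hS2
  have hfz : ∀ x y : G, f (-(x + y)) = -(f x + f y) := by
    intro x y; rw [map_neg, map_add]
  have hsub : (S ×ˢ S).filter (fun p => -(p.1 + p.2) ∈ S) ⊆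
      (S0 ×ˢ S0).filter (fun p => -(p.1 + p.2) ∈ S0) ∪
      ((S1 ×ˢ S1).filter (fun p => -(p.1 + p.2) ∈ S1) ∪
      ((S2 ×ˢ S2).filter (fun p => -(p.1 + p.2) ∈ S2) ∪
      ((S1 ×ˢ S2).image (fun q => (q.1, q.2)) ∪
      ((S1 ×ˢ S2).image (fun q => (q.2, q.1)) ∪
      ((S1 ×ˢ S2).image (fun q => (-(q.1 + q.2), q.1)) ∪
      ((S1 ×ˢ S2).image (fun q => (q.1, -(q.1 + q.2))) ∪
      ((S1 ×ˢ S2).image (fun q => (-(q.1 + q.2), q.2)) ∪
      ((S1 ×ˢ S2).image (fun q => (q.2, -(q.1 + q.2)))))))))))  := by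
    rintro ⟨x, y⟩ hp
    rw [mem_filter, mem_product] at hp
    obtain ⟨⟨hx, hy⟩, hz⟩ := hp
    simp only at hx hy hz
    have m1 : ∀ {w : G}, w ∈ S → f w = i → w ∈ S0 := fun h1 h2 => mem_filter.2 ⟨h1, h2⟩
    have m2 : ∀ {w : G}, w ∈ S → f w = i + 1 → w ∈ S1 := fun h1 h2 => mem_filter.2 ⟨h1, h2⟩
    have m3 : ∀ {w : G}, w ∈ S → f w = i + 2 → w ∈ S2 := fun h1 h2 => mem_filter.2 ⟨h1, h2⟩
    rcases hdec (f x) (f y) i with ⟨h1, h2, h3⟩ | ⟨h1, h2, h3⟩ | ⟨h1, h2, h3⟩ | ⟨h1, h2⟩ |
      ⟨h1, h2⟩ | ⟨h1, h2⟩ | ⟨h1, h2⟩ | ⟨h1, h2⟩ | ⟨h1, h2⟩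
    · rw [← hfz] at h3
      refine mem_union_left _ ?_
      exact mem_filter.2 ⟨mem_product.2 ⟨m1 hx h1, m1 hy h2⟩, m1 hz h3⟩
    · rw [← hfz] at h3
      refine mem_union_right _ (mem_union_left _ ?_)
      exact mem_filter.2 ⟨mem_product.2 ⟨m2 hx h1, m2 hy h2⟩, m2 hz h3⟩
    · rw [← hfz] at h3
      refine mem_union_right _ (mem_union_right _ (mem_union_left _ ?_))
      exact mem_filter.2 ⟨mem_product.2 ⟨m3 hx h1, m3 hy h2⟩, m3 hz h3⟩
    · refine mem_union_right _ (mem_union_right _ (mem_union_right _ (mem_union_left _ ?_)))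
      exact mem_image.2 ⟨(x, y), mem_product.2 ⟨m2 hx h1, m3 hy h2⟩, rfl⟩
    · refine mem_union_right _ (mem_union_right _ (mem_union_right _ (mem_union_right _
        (mem_union_left _ ?_))))
      exact mem_image.2 ⟨(y, x), mem_product.2 ⟨m2 hy h1, m3 hx h2⟩, rfl⟩
    · rw [← hfz] at h2
      refine mem_union_right _ (mem_union_right _ (mem_union_right _ (mem_union_right _
        (mem_union_right _ (mem_union_left _ ?_)))))
      refine mem_image.2 ⟨(y, -(x + y)), mem_product.2 ⟨m2 hy h1, m3 hz h2⟩, ?_⟩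
      simp only [Prod.mk.injEq, and_true]
      abel
    · rw [← hfz] at h2
      refine mem_union_right _ (mem_union_right _ (mem_union_right _ (mem_union_right _
        (mem_union_right _ (mem_union_right _ (mem_union_left _ ?_))))))
      refine mem_image.2 ⟨(x, -(x + y)), mem_product.2 ⟨m2 hx h1, m3 hz h2⟩, ?_⟩
      simp only [Prod.mk.injEq, true_and]
      abel
    · rw [← hfz] at h1
      refine mem_union_right _ (mem_union_right _ (mem_union_right _ (mem_union_right _
        (mem_union_right _ (mem_union_right _ (mem_union_right _ (mem_union_left _ ?_)))))))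
      refine mem_image.2 ⟨(-(x + y), y), mem_product.2 ⟨m2 hz h1, m3 hy h2⟩, ?_⟩
      simp only [Prod.mk.injEq, and_true]
      abel
    · rw [← hfz] at h1
      refine mem_union_right _ (mem_union_right _ (mem_union_right _ (mem_union_right _
        (mem_union_right _ (mem_union_right _ (mem_union_right _ (mem_union_right _ ?_)))))))
      refine mem_image.2 ⟨(-(x + y), x), mem_product.2 ⟨m2 hz h1, m3 hx h2⟩, ?_⟩
      simp only [Prod.mk.injEq, true_and]
      abel
  have c1 : ∀ g : G × G → G × G, ((S1 ×ˢ S2).image g).card ≤ S1.card * S2.card := by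
    intro g
    exact card_image_le.trans (card_product S1 S2).le
  have hT : ∀ R : Finset G, ((R ×ˢ R).filter (fun p => -(p.1 + p.2) ∈ R)).card = T R := by
    intro R; unfold T; congr
  have u := card_le_card hsub
  have v := fun (A B : Finset (G × G)) => card_union_le A B
  rw [hT] at u
  refine u.trans ?_
  refine (card_union_le _ _).trans ?_
  rw [hT]
  refine (add_le_add_right (card_union_le _ _) _).trans ?_
  rw [hT]
  refine (add_le_add_right (add_le_add_right (card_union_le _ _) _) _).trans ?_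
  rw [hT]
  have w : (((S1 ×ˢ S2).image (fun q => (q.1, q.2)) ∪
      ((S1 ×ˢ S2).image (fun q => (q.2, q.1)) ∪
      ((S1 ×ˢ S2).image (fun q => (-(q.1 + q.2), q.1)) ∪
      ((S1 ×ˢ S2).image (fun q => (q.1, -(q.1 + q.2))) ∪
      ((S1 ×ˢ S2).image (fun q => (-(q.1 + q.2), q.2)) ∪
      ((S1 ×ˢ S2).image (fun q => (q.2, -(q.1 + q.2)))))))))).card ≤ 6 * (S1.card * S2.card) := by
    have e1 := c1 (fun q => (q.1, q.2))
    have e2 := c1 (fun q => (q.2, q.1))
    have e3 := c1 (fun q => (-(q.1 + q.2), q.1))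
    have e4 := c1 (fun q => (q.1, -(q.1 + q.2)))
    have e5 := c1 (fun q => (-(q.1 + q.2), q.2))
    have e6 := c1 (fun q => (q.2, -(q.1 + q.2)))
    refine (card_union_le _ _).trans ?_
    refine (add_le_add e1 ((card_union_le _ _).trans (add_le_add e2 ((card_union_le _ _).trans
      (add_le_add e3 ((card_union_le _ _).trans (add_le_add e4 ((card_union_le _ _).trans
      (add_le_add e5 e6))))))))).trans ?_
    omega
  rw [mul_assoc]
  omega

open Classical in
theorem eh_count {G : Type*} [AddCommGroup G] [Module (ZMod 3) G] [Fintype G]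
    [Fintype (G →ₗ[ZMod 3] ZMod 3)] (g : G) :
    3 * (∑ f : G →ₗ[ZMod 3] ZMod 3, if f g = 0 then (1 : ℤ) else 0) =
      (Fintype.card G : ℤ) + (if g = 0 then 2 * (Fintype.card G : ℤ) else 0) := by
  have hcard : Fintype.card (G →ₗ[ZMod 3] ZMod 3) = Fintype.card G := by
    have h1 := Module.card_eq_pow_finrank (K := ZMod 3) (V := G)
    have h2 := Module.card_eq_pow_finrank (K := ZMod 3) (V := (G →ₗ[ZMod 3] ZMod 3))
    rw [h1, h2]
    congr 1
    exact Subspace.dual_finrank_eq
  by_cases hg : g = 0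
  · subst hg
    simp [hcard]
    ring
  · rw [if_neg hg, add_zero, ← hcard]
    obtain ⟨φ, hφ⟩ : ∃ φ : G →ₗ[ZMod 3] ZMod 3, φ g ≠ 0 := by
      by_contra hc
      push Not at hc
      exact hg ((Module.forall_dual_apply_eq_zero_iff (ZMod 3) g).1 hc)
    have h1 : ((φ g)⁻¹ • φ) g = 1 := by
      rw [LinearMap.smul_apply, smul_eq_mul, inv_mul_cancel₀ hφ]
    set φ1 := (φ g)⁻¹ • φ
    have h2 : ∀ c : ZMod 3, ∑ f : G →ₗ[ZMod 3] ZMod 3, (if f g = c then (1 : ℤ) else 0) =
        ∑ f : G →ₗ[ZMod 3] ZMod 3, (if f g = 0 then (1 : ℤ) else 0) := by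
      intro c
      rw [← Equiv.sum_comp (Equiv.addRight (c • φ1))]
      refine sum_congr rfl fun f _ => ?_
      have e : (Equiv.addRight (c • φ1) f) g = f g + c := by
        simp [h1]
      rw [e]
      simp
    have h3 : ∑ c : ZMod 3, ∑ f : G →ₗ[ZMod 3] ZMod 3, (if f g = c then (1 : ℤ) else 0) =
        Fintype.card (G →ₗ[ZMod 3] ZMod 3) := by
      rw [sum_comm]
      simp
    rw [sum_congr rfl (fun c _ => h2 c), sum_const, card_univ, ZMod.card] at h3
    rw [← h3]
    simp

open Classical in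
theorem eh_fib {G : Type*} (S : Finset G) (f : G → ZMod 3) (F : ZMod 3 → ℤ) :
    ∑ x ∈ S, F (f x) = ∑ i : ZMod 3, ((S.filter (fun x => f x = i)).card : ℤ) * F i := by
  rw [← Finset.sum_fiberwise S f (fun x => F (f x))]
  refine sum_congr rfl fun i _ => ?_
  have : ∀ x ∈ S.filter (fun x => f x = i), F (f x) = F i := by
    intro x hx
    rw [(mem_filter.1 hx).2]
  rw [sum_congr rfl this, sum_const, nsmul_eq_mul]

theorem eh_three (F : ZMod 3 → ℤ) : ∑ i : ZMod 3, F i = F 0 + F 1 + F 2 := Fin.sum_univ_three F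

theorem eh_ineq {a b c A : ℤ} (ha : a ≤ A) (hb : b ≤ A) (hc : c ≤ A) :
    2 * (3 * (a ^ 3 + b ^ 3 + c ^ 3 + 6 * a * b * c) - (a + b + c) ^ 3) ≤
      (3 * A - (a + b + c)) * (3 * (a ^ 2 + b ^ 2 + c ^ 2) - (a + b + c) ^ 2) := by
  have hs : 0 ≤ 3 * (a ^ 2 + b ^ 2 + c ^ 2) - (a + b + c) ^ 2 := by
    nlinarith [sq_nonneg (a - b), sq_nonneg (b - c), sq_nonneg (a - c)]
  by_cases h1 : b ≤ a ∧ c ≤ a
  · have hu : 0 ≤ 2 * a - b - c := by linarith [h1.1, h1.2]
    have hA : 0 ≤ A - a := by linarith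
    nlinarith [mul_nonneg hA hs, mul_nonneg hu (sq_nonneg (b - c))]
  · by_cases h2 : a ≤ b ∧ c ≤ b
    · have hu : 0 ≤ 2 * b - a - c := by linarith [h2.1, h2.2]
      have hA : 0 ≤ A - b := by linarith
      nlinarith [mul_nonneg hA hs, mul_nonneg hu (sq_nonneg (a - c))]
    · have h3 : a ≤ c ∧ b ≤ c := by
        constructor
        · by_contra h
          push Not at h
          by_cases h4 : b ≤ a
          · exact h1 ⟨h4, h.le⟩
          · push Not at h4
            exact h2 ⟨h4.le, by linarith⟩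
        · by_contra h
          push Not at h
          by_cases h4 : a ≤ b
          · exact h2 ⟨h4, h.le⟩
          · push Not at h4
            exact h1 ⟨h4.le, by linarith⟩
      have hu : 0 ≤ 2 * c - a - b := by linarith [h3.1, h3.2]
      have hA : 0 ≤ A - c := by linarith
      nlinarith [mul_nonneg hA hs, mul_nonneg hu (sq_nonneg (a - b))]

open Classical in
/-- pair count -/
noncomputable def ehs {G : Type*} [AddCommGroup G] (S : Finset G) (f : G → ZMod 3) : ℤ :=
  ∑ x ∈ S, ∑ y ∈ S, if f (x - y) = 0 then (1 : ℤ) else 0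

open Classical in
/-- triple count -/
noncomputable def eht {G : Type*} [AddCommGroup G] (S : Finset G) (f : G → ZMod 3) : ℤ :=
  ∑ x ∈ S, ∑ y ∈ S, ∑ z ∈ S, if f (x + y + z) = 0 then (1 : ℤ) else 0

open Classical in
theorem eh_m {G : Type*} (S : Finset G) (f : G → ZMod 3) :
    (S.card : ℤ) = ((S.filter (fun x => f x = 0)).card : ℤ) +
      ((S.filter (fun x => f x = 1)).card : ℤ) + ((S.filter (fun x => f x = 2)).card : ℤ) := by
  have := eh_fib S f (fun _ => 1)
  rw [eh_three] at this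
  simpa using this

open Classical in
theorem eh_s {G : Type*} [AddCommGroup G] [Module (ZMod 3) G] (S : Finset G)
    (f : G →ₗ[ZMod 3] ZMod 3) :
    ehs S f = ((S.filter (fun x => f x = 0)).card : ℤ) ^ 2 +
      ((S.filter (fun x => f x = 1)).card : ℤ) ^ 2 +
      ((S.filter (fun x => f x = 2)).card : ℤ) ^ 2 := by
  unfold ehs
  have h1 : ∀ x ∈ S, ∑ y ∈ S, (if f (x - y) = 0 then (1 : ℤ) else 0) =
      (fun i : ZMod 3 => ∑ j : ZMod 3, ((S.filter (fun x => f x = j)).card : ℤ) *
        (if i - j = 0 then 1 else 0)) (f x) := by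
    intro x _
    have := eh_fib S f (fun j => if f x - j = 0 then (1 : ℤ) else 0)
    simp only [map_sub]
    exact this
  refine (sum_congr rfl h1).trans ((eh_fib S f (fun i : ZMod 3 => ∑ j : ZMod 3,
    ((S.filter (fun x => f x = j)).card : ℤ) * (if i - j = 0 then 1 else 0))).trans ?_)
  rw [eh_three]
  simp only [eh_three]
  have e : ∀ i j : ZMod 3, (i - j = 0) ↔ i = j := fun i j => sub_eq_zero
  simp only [e]
  rw [if_neg (show ¬ (0 : ZMod 3) = 1 by decide),
    if_neg (show ¬ (0 : ZMod 3) = 2 by decide), if_neg (show ¬ (1 : ZMod 3) = 0 by decide),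
    if_neg (show ¬ (1 : ZMod 3) = 2 by decide),
    if_neg (show ¬ (2 : ZMod 3) = 0 by decide), if_neg (show ¬ (2 : ZMod 3) = 1 by decide)]
  simp only [if_true]
  ring

open Classical in
theorem eh_t {G : Type*} [AddCommGroup G] [Module (ZMod 3) G] (S : Finset G)
    (f : G →ₗ[ZMod 3] ZMod 3) :
    eht S f = ((S.filter (fun x => f x = 0)).card : ℤ) ^ 3 +
      ((S.filter (fun x => f x = 1)).card : ℤ) ^ 3 +
      ((S.filter (fun x => f x = 2)).card : ℤ) ^ 3 +
      6 * ((S.filter (fun x => f x = 0)).card : ℤ) * ((S.filter (fun x => f x = 1)).card : ℤ) *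
        ((S.filter (fun x => f x = 2)).card : ℤ) := by
  unfold eht
  have h1 : ∀ x ∈ S, ∀ y ∈ S, ∑ z ∈ S, (if f (x + y + z) = 0 then (1 : ℤ) else 0) =
      (fun j : ZMod 3 => ∑ k : ZMod 3, ((S.filter (fun x => f x = k)).card : ℤ) *
        (if f x + j + k = 0 then 1 else 0)) (f y) := by
    intro x _ y _
    have := eh_fib S f (fun k => if f x + f y + k = 0 then (1 : ℤ) else 0)
    simp only [map_add]
    exact this
  have h2 : ∀ x ∈ S, ∑ y ∈ S, ∑ z ∈ S, (if f (x + y + z) = 0 then (1 : ℤ) else 0) =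
      (fun i : ZMod 3 => ∑ j : ZMod 3, ((S.filter (fun x => f x = j)).card : ℤ) *
        ∑ k : ZMod 3, ((S.filter (fun x => f x = k)).card : ℤ) *
        (if i + j + k = 0 then 1 else 0)) (f x) := by
    intro x hx
    exact (sum_congr rfl (h1 x hx)).trans (eh_fib S f (fun j : ZMod 3 => ∑ k : ZMod 3,
      ((S.filter (fun x => f x = k)).card : ℤ) * (if f x + j + k = 0 then 1 else 0)))
  refine (sum_congr rfl h2).trans ((eh_fib S f (fun i : ZMod 3 => ∑ j : ZMod 3,
    ((S.filter (fun x => f x = j)).card : ℤ) *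
      ∑ k : ZMod 3, ((S.filter (fun x => f x = k)).card : ℤ) *
        (if i + j + k = 0 then 1 else 0))).trans ?_)
  rw [eh_three]
  simp only [eh_three]
  have e000 : (0 : ZMod 3) + 0 + 0 = 0 := by decide
  have e001 : ¬ (0 : ZMod 3) + 0 + 1 = 0 := by decide
  have e002 : ¬ (0 : ZMod 3) + 0 + 2 = 0 := by decide
  have e010 : ¬ (0 : ZMod 3) + 1 + 0 = 0 := by decide
  have e011 : ¬ (0 : ZMod 3) + 1 + 1 = 0 := by decide
  have e012 : (0 : ZMod 3) + 1 + 2 = 0 := by decide
  have e020 : ¬ (0 : ZMod 3) + 2 + 0 = 0 := by decide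
  have e021 : (0 : ZMod 3) + 2 + 1 = 0 := by decide
  have e022 : ¬ (0 : ZMod 3) + 2 + 2 = 0 := by decide
  have e100 : ¬ (1 : ZMod 3) + 0 + 0 = 0 := by decide
  have e101 : ¬ (1 : ZMod 3) + 0 + 1 = 0 := by decide
  have e102 : (1 : ZMod 3) + 0 + 2 = 0 := by decide
  have e110 : ¬ (1 : ZMod 3) + 1 + 0 = 0 := by decide
  have e111 : (1 : ZMod 3) + 1 + 1 = 0 := by decide
  have e112 : ¬ (1 : ZMod 3) + 1 + 2 = 0 := by decide
  have e120 : (1 : ZMod 3) + 2 + 0 = 0 := by decide
  have e121 : ¬ (1 : ZMod 3) + 2 + 1 = 0 := by decide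
  have e122 : ¬ (1 : ZMod 3) + 2 + 2 = 0 := by decide
  have e200 : ¬ (2 : ZMod 3) + 0 + 0 = 0 := by decide
  have e201 : (2 : ZMod 3) + 0 + 1 = 0 := by decide
  have e202 : ¬ (2 : ZMod 3) + 0 + 2 = 0 := by decide
  have e210 : (2 : ZMod 3) + 1 + 0 = 0 := by decide
  have e211 : ¬ (2 : ZMod 3) + 1 + 1 = 0 := by decide
  have e212 : ¬ (2 : ZMod 3) + 1 + 2 = 0 := by decide
  have e220 : ¬ (2 : ZMod 3) + 2 + 0 = 0 := by decide
  have e221 : ¬ (2 : ZMod 3) + 2 + 1 = 0 := by decide
  have e222 : (2 : ZMod 3) + 2 + 2 = 0 := by decide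
  rw [if_pos e000, if_neg e001, if_neg e002, if_neg e010, if_neg e011, if_pos e012,
    if_neg e020, if_pos e021, if_neg e022, if_neg e100, if_neg e101, if_pos e102,
    if_neg e110, if_pos e111, if_neg e112, if_pos e120, if_neg e121, if_neg e122,
    if_neg e200, if_pos e201, if_neg e202, if_pos e210, if_neg e211, if_neg e212,
    if_neg e220, if_neg e221, if_pos e222]
  ring

open Classical in
theorem eh_sums {G : Type*} [AddCommGroup G] [Module (ZMod 3) G] [Fintype G]
    [Fintype (G →ₗ[ZMod 3] ZMod 3)] (S : Finset G) :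
    3 * ∑ f : G →ₗ[ZMod 3] ZMod 3, ehs S f =
      (S.card : ℤ) ^ 2 * Fintype.card G + 2 * Fintype.card G * S.card := by
  unfold ehs
  rw [Finset.sum_comm, mul_sum]
  have h1 : ∀ x ∈ S, 3 * ∑ f : G →ₗ[ZMod 3] ZMod 3, ∑ y ∈ S,
      (if f (x - y) = 0 then (1 : ℤ) else 0) =
      (S.card : ℤ) * Fintype.card G + 2 * Fintype.card G := by
    intro x hx
    rw [Finset.sum_comm, mul_sum, sum_congr rfl (fun y _ => eh_count (x - y)), sum_add_distrib,
      sum_const, nsmul_eq_mul]
    congr 1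
    rw [Finset.sum_eq_single x]
    · rw [if_pos (sub_self x)]
    · intro y _ hy
      rw [if_neg (sub_ne_zero.2 hy.symm)]
    · intro h
      exact absurd hx h
  rw [sum_congr rfl h1, sum_const, nsmul_eq_mul]
  ring

open Classical in
theorem eh_sumt {G : Type*} [AddCommGroup G] [Module (ZMod 3) G] [Fintype G]
    [Fintype (G →ₗ[ZMod 3] ZMod 3)] (S : Finset G) :
    3 * ∑ f : G →ₗ[ZMod 3] ZMod 3, eht S f =
      (S.card : ℤ) ^ 3 * Fintype.card G + 2 * Fintype.card G * T S := by
  unfold eht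
  rw [Finset.sum_comm, mul_sum]
  have h2 : ∀ x ∈ S, ∀ y ∈ S, 3 * ∑ f : G →ₗ[ZMod 3] ZMod 3, ∑ z ∈ S,
      (if f (x + y + z) = 0 then (1 : ℤ) else 0) =
      (S.card : ℤ) * Fintype.card G + (if -(x + y) ∈ S then 2 * (Fintype.card G : ℤ) else 0) := by
    intro x _ y _
    rw [Finset.sum_comm, mul_sum, sum_congr rfl (fun z _ => eh_count (x + y + z)),
      sum_add_distrib, sum_const, nsmul_eq_mul]
    congr 1
    by_cases h : -(x + y) ∈ S
    · rw [if_pos h, Finset.sum_eq_single (-(x + y))]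
      · rw [if_pos (add_neg_cancel _)]
      · intro z _ hz
        rw [if_neg]
        intro hc
        exact hz (eq_neg_of_add_eq_zero_right hc)
      · intro h'
        exact absurd h h'
    · rw [if_neg h]
      refine Finset.sum_eq_zero fun z hz => ?_
      rw [if_neg]
      intro hc
      apply h
      rw [← eq_neg_of_add_eq_zero_right hc]
      exact hz
  have h1 : ∀ x ∈ S, 3 * ∑ f : G →ₗ[ZMod 3] ZMod 3, ∑ y ∈ S, ∑ z ∈ S,
      (if f (x + y + z) = 0 then (1 : ℤ) else 0) =
      (S.card : ℤ) ^ 2 * Fintype.card G +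
        ∑ y ∈ S, (if -(x + y) ∈ S then 2 * (Fintype.card G : ℤ) else 0) := by
    intro x hx
    rw [Finset.sum_comm, mul_sum, sum_congr rfl (h2 x hx), sum_add_distrib, sum_const,
      nsmul_eq_mul]
    ring
  rw [sum_congr rfl h1, sum_add_distrib, sum_const, nsmul_eq_mul]
  have hT : (T S : ℤ) = ∑ x ∈ S, ∑ y ∈ S, (if -(x + y) ∈ S then (1 : ℤ) else 0) := by
    unfold T
    rw [Finset.card_filter, Finset.sum_product]
    push_cast
    rfl
  rw [hT, mul_sum]
  congr 1
  · ring
  · refine sum_congr rfl fun x _ => ?_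
    rw [mul_sum]
    refine sum_congr rfl fun y _ => ?_
    rw [mul_ite, mul_one, mul_zero]

theorem exists_hyperplane {G : Type*} [AddCommGroup G] [Module (ZMod 3) G] [Fintype G]
    (hG : 1 < Fintype.card G) (S : Finset G) :
    ∃ (f : G →ₗ[ZMod 3] ZMod 3) (i : ZMod 3), f ≠ 0 ∧
      2 * ((Fintype.card G : ℤ) * T S - (S.card : ℤ) ^ 3) ≤
        (3 * ((S.filter (fun x => f x = i)).card : ℤ) - S.card) *
          (S.card * Fintype.card G - (S.card : ℤ) ^ 2) := by
  classical
  haveI : Finite (G →ₗ[ZMod 3] ZMod 3) := DFunLike.finite _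
  haveI : Fintype (G →ₗ[ZMod 3] ZMod 3) := Fintype.ofFinite _
  have hcard : Fintype.card (G →ₗ[ZMod 3] ZMod 3) = Fintype.card G := by
    have h1 := Module.card_eq_pow_finrank (K := ZMod 3) (V := G)
    have h2 := Module.card_eq_pow_finrank (K := ZMod 3) (V := (G →ₗ[ZMod 3] ZMod 3))
    rw [h1, h2]
    congr 1
    exact Subspace.dual_finrank_eq
  haveI : Nontrivial (G →ₗ[ZMod 3] ZMod 3) := by
    rw [← Fintype.one_lt_card_iff_nontrivial, hcard]
    exact hG
  obtain ⟨f1, hf1⟩ := exists_ne (0 : G →ₗ[ZMod 3] ZMod 3)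
  have hne : (((univ : Finset (G →ₗ[ZMod 3] ZMod 3)).erase 0) ×ˢ
      (univ : Finset (ZMod 3))).Nonempty := ⟨(f1, 0), by simp [hf1]⟩
  obtain ⟨⟨f0, i0⟩, hmem, hmax⟩ := Finset.exists_max_image _
    (fun p : (G →ₗ[ZMod 3] ZMod 3) × ZMod 3 => (S.filter (fun x => p.1 x = p.2)).card) hne
  have hf0 : f0 ≠ 0 := by
    have := (Finset.mem_product.1 hmem).1
    exact (Finset.mem_erase.1 this).1
  refine ⟨f0, i0, hf0, ?_⟩
  set A : ℤ := ((S.filter (fun x => f0 x = i0)).card : ℤ) with hA
  set m : ℤ := (S.card : ℤ) with hm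
  set N : ℤ := (Fintype.card G : ℤ) with hN
  have hle : ∀ f : G →ₗ[ZMod 3] ZMod 3, f ≠ 0 → ∀ i, ((S.filter (fun x => f x = i)).card : ℤ) ≤ A := by
    intro f hf i
    have := hmax (f, i) (by simp [hf])
    rw [hA]
    exact_mod_cast this
  have hpt : ∀ f ∈ (univ : Finset (G →ₗ[ZMod 3] ZMod 3)).erase 0,
      2 * (3 * eht S f - m ^ 3) ≤ (3 * A - m) * (3 * ehs S f - m ^ 2) := by
    intro f hf
    have hf' := (Finset.mem_erase.1 hf).1
    have := eh_ineq (hle f hf' 0) (hle f hf' 1) (hle f hf' 2)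
    rw [← eh_t, ← eh_s, ← eh_m, ← hm] at this
    exact this
  have hsum := Finset.sum_le_sum hpt
  rw [← mul_sum, ← mul_sum, sum_sub_distrib, sum_sub_distrib, ← mul_sum, ← mul_sum, sum_const,
    sum_const, Finset.card_erase_of_mem (mem_univ _), Finset.card_univ, hcard] at hsum
  have hs0 : ehs S (0 : G →ₗ[ZMod 3] ZMod 3) = m ^ 2 := by
    simp [ehs, hm]
    ring
  have ht0 : eht S (0 : G →ₗ[ZMod 3] ZMod 3) = m ^ 3 := by
    simp [eht, hm]
    ring
  have hs := Finset.add_sum_erase (univ : Finset (G →ₗ[ZMod 3] ZMod 3)) (fun f => ehs S f)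
    (mem_univ 0)
  have ht := Finset.add_sum_erase (univ : Finset (G →ₗ[ZMod 3] ZMod 3)) (fun f => eht S f)
    (mem_univ 0)
  have hs3 := eh_sums S
  have ht3 := eh_sumt S
  simp only [hs0] at hs
  simp only [ht0] at ht
  rw [← hs] at hs3
  rw [← ht] at ht3
  have hc1 : ((Fintype.card G - 1 : ℕ) : ℤ) = N - 1 := by
    rw [Nat.cast_sub hG.le, hN]
    simp
  rw [nsmul_eq_mul, nsmul_eq_mul, hc1] at hsum
  rw [← hm, ← hN] at hs3 ht3
  set X := ∑ f ∈ (univ : Finset (G →ₗ[ZMod 3] ZMod 3)).erase 0, ehs S f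
  set Y := ∑ f ∈ (univ : Finset (G →ₗ[ZMod 3] ZMod 3)).erase 0, eht S f
  have e1 : 3 * X - (N - 1) * m ^ 2 = 2 * (m * N - m ^ 2) := by linarith
  have e2 : 3 * Y - (N - 1) * m ^ 3 = 2 * (N * T S - m ^ 3) := by linarith
  rw [e1, e2] at hsum
  linarith

open Classical in
/-- the glued set -/
noncomputable def T_build_S {n : ℕ} (D : ZMod 3 → Finset (Fin n → ZMod 3)) :
    Finset (Fin (n + 1) → ZMod 3) :=
  univ.filter (fun x => Fin.tail x ∈ D (x 0))

open Classical in
/-- pairs over a given pair of first coordinates -/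
noncomputable def T_build_N {n : ℕ} (D : ZMod 3 → Finset (Fin n → ZMod 3)) (i j : ZMod 3) : ℕ :=
  ((D i ×ˢ D j).filter (fun p => -(p.1 + p.2) ∈ D (-(i + j)))).card

theorem T_build_mem {n : ℕ} (D : ZMod 3 → Finset (Fin n → ZMod 3)) (x : Fin (n + 1) → ZMod 3) :
    x ∈ T_build_S D ↔ Fin.tail x ∈ D (x 0) := by
  simp [T_build_S]

theorem T_build_card {n : ℕ} (D : ZMod 3 → Finset (Fin n → ZMod 3)) :
    (T_build_S D).card = ∑ i : ZMod 3, (D i).card := by
  classical
  rw [Finset.card_eq_sum_card_fiberwise (f := fun x : Fin (n + 1) → ZMod 3 => x 0)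
    (t := (univ : Finset (ZMod 3))) (fun x _ => Finset.mem_coe.2 (Finset.mem_univ _))]
  refine Finset.sum_congr rfl fun i _ => ?_
  refine Finset.card_nbij' (fun x => Fin.tail x) (fun a => (Fin.cons i a : Fin (n + 1) → ZMod 3))
    ?_ ?_ ?_ ?_
  · intro x hx
    simp only [Finset.coe_filter, Set.mem_ofPred_eq, T_build_mem] at hx
    rw [← hx.2]
    exact hx.1
  · intro a ha
    simp only [Finset.coe_filter, Set.mem_ofPred_eq, T_build_mem, Fin.cons_zero, Fin.tail_cons]
    exact ⟨ha, trivial⟩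
  · intro x hx
    simp only [Finset.coe_filter, Set.mem_ofPred_eq, T_build_mem] at hx
    dsimp only
    rw [← hx.2]
    exact Fin.cons_self_tail x
  · intro a ha
    dsimp only
    exact Fin.tail_cons _ _

theorem T_build_tail {n : ℕ} (x y : Fin (n + 1) → ZMod 3) :
    Fin.tail (-(x + y)) = -(Fin.tail x + Fin.tail y) := rfl

theorem T_build_T {n : ℕ} (D : ZMod 3 → Finset (Fin n → ZMod 3)) :
    T (T_build_S D) = ∑ p : ZMod 3 × ZMod 3, T_build_N D p.1 p.2 := by
  classical
  unfold T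
  rw [Finset.card_eq_sum_card_fiberwise
    (f := fun q : (Fin (n + 1) → ZMod 3) × (Fin (n + 1) → ZMod 3) => (q.1 0, q.2 0))
    (t := (univ : Finset (ZMod 3 × ZMod 3))) (fun x _ => Finset.mem_coe.2 (Finset.mem_univ _))]
  refine Finset.sum_congr rfl fun p _ => ?_
  obtain ⟨i, j⟩ := p
  unfold T_build_N
  refine Finset.card_nbij' (fun q => (Fin.tail q.1, Fin.tail q.2))
    (fun q => ((Fin.cons i q.1 : Fin (n + 1) → ZMod 3), (Fin.cons j q.2 : Fin (n + 1) → ZMod 3)))
    ?_ ?_ ?_ ?_
  · rintro ⟨x, y⟩ hx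
    simp only [Finset.coe_filter, Set.mem_ofPred_eq, Finset.mem_filter, Finset.mem_product,
      T_build_mem, T_build_tail, Prod.mk.injEq] at hx ⊢
    obtain ⟨⟨⟨h1, h2⟩, h3⟩, h4, h5⟩ := hx
    subst h4 h5
    exact ⟨⟨h1, h2⟩, h3⟩
  · rintro ⟨a, b⟩ ha
    simp only [Finset.coe_filter, Set.mem_ofPred_eq, Finset.mem_filter, Finset.mem_product,
      T_build_mem, T_build_tail, Prod.mk.injEq, Fin.cons_zero, Fin.tail_cons] at ha ⊢
    obtain ⟨⟨h1, h2⟩, h3⟩ := ha
    refine ⟨⟨⟨h1, h2⟩, ?_⟩, trivial, trivial⟩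
    exact h3
  · rintro ⟨x, y⟩ hx
    simp only [Finset.coe_filter, Set.mem_ofPred_eq, Finset.mem_filter, Finset.mem_product,
      T_build_mem, T_build_tail, Prod.mk.injEq] at hx ⊢
    obtain ⟨⟨⟨h1, h2⟩, h3⟩, h4, h5⟩ := hx
    subst h4 h5
    exact ⟨Fin.cons_self_tail x, Fin.cons_self_tail y⟩
  · rintro ⟨a, b⟩ ha
    dsimp only
    rw [Fin.tail_cons, Fin.tail_cons]

/-- the diagonal classes -/
theorem T_build_diag {n : ℕ} (D : ZMod 3 → Finset (Fin n → ZMod 3)) (i : ZMod 3) :
    T_build_N D i i = T (D i) := by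
  unfold T_build_N T
  have h : -(i + i) = i := by revert i; decide
  rw [h]
  congr!

theorem T_build_third {n : ℕ} (D : ZMod 3 → Finset (Fin n → ZMod 3)) (i j : ZMod 3)
    (h : D (-(i + j)) = univ) : T_build_N D i j = (D i).card * (D j).card := by
  unfold T_build_N
  rw [h, ← Finset.card_product]
  congr 1
  apply Finset.filter_true_of_mem
  intro p _
  exact Finset.mem_univ _

theorem T_build_first {n : ℕ} (D : ZMod 3 → Finset (Fin n → ZMod 3)) (i j : ZMod 3)
    (h : D i = univ) : T_build_N D i j = (D j).card * (D (-(i + j))).card := by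
  unfold T_build_N
  rw [h, ← Finset.card_product]
  refine Finset.card_nbij' (fun p => (p.2, -(p.1 + p.2))) (fun q => (-(q.1 + q.2), q.1))
    ?_ ?_ ?_ ?_
  · rintro ⟨a, b⟩ hp
    simp only [Finset.coe_filter, Set.mem_ofPred_eq, Finset.mem_product, Finset.mem_univ,
      true_and, Finset.coe_product, Set.mem_prod, Finset.mem_coe] at hp ⊢
    exact hp
  · rintro ⟨b, c⟩ hp
    simp only [Finset.coe_filter, Set.mem_ofPred_eq, Finset.mem_product, Finset.mem_univ,
      true_and, Finset.coe_product, Set.mem_prod, Finset.mem_coe] at hp ⊢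
    refine ⟨hp.1, ?_⟩
    have : -(-(b + c) + b) = c := by abel
    rw [this]
    exact hp.2
  · rintro ⟨a, b⟩ _
    simp only [Prod.mk.injEq, and_true]
    abel
  · rintro ⟨b, c⟩ _
    simp only [Prod.mk.injEq, true_and]
    abel

theorem T_build_second {n : ℕ} (D : ZMod 3 → Finset (Fin n → ZMod 3)) (i j : ZMod 3)
    (h : D j = univ) : T_build_N D i j = (D i).card * (D (-(i + j))).card := by
  have h1 : T_build_N D i j = T_build_N D j i := by
    unfold T_build_N
    refine Finset.card_nbij' Prod.swap Prod.swap ?_ ?_ ?_ ?_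
    · rintro ⟨a, b⟩ hp
      simp only [Finset.coe_filter, Set.mem_ofPred_eq, Finset.mem_product, Prod.swap] at hp ⊢
      rw [add_comm b a, add_comm j i]
      exact ⟨⟨hp.1.2, hp.1.1⟩, hp.2⟩
    · rintro ⟨a, b⟩ hp
      simp only [Finset.coe_filter, Set.mem_ofPred_eq, Finset.mem_product, Prod.swap] at hp ⊢
      rw [add_comm b a, add_comm i j]
      exact ⟨⟨hp.1.2, hp.1.1⟩, hp.2⟩
    · rintro ⟨a, b⟩ _; rfl
    · rintro ⟨a, b⟩ _; rfl
  rw [h1, T_build_first D j i h, add_comm j i]

theorem T_build {n : ℕ} (A B C : Finset (Fin n → ZMod 3)) :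
    ∃ S : Finset (Fin (n + 1) → ZMod 3), S.card = A.card + B.card + C.card ∧
      T A + T B + T C ≤ T S ∧
      (A = univ → T S = T A + T B + T C + 6 * (B.card * C.card)) := by
  set D : ZMod 3 → Finset (Fin n → ZMod 3) := fun i => if i = 0 then A else if i = 1 then B else C
    with hD
  have hsum3 : ∀ f : ZMod 3 → ℕ, ∑ i : ZMod 3, f i = f 0 + f 1 + f 2 := by
    intro f
    exact Fin.sum_univ_three f
  have e10 : (1 : ZMod 3) ≠ 0 := by decide
  have e20 : (2 : ZMod 3) ≠ 0 := by decide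
  have e21 : (2 : ZMod 3) ≠ 1 := by decide
  have D0 : D 0 = A := by simp [hD]
  have D1 : D 1 = B := by simp [hD, e10]
  have D2 : D 2 = C := by simp only [hD, if_neg e20, if_neg e21]
  have hT : T (T_build_S D) = T A + T B + T C + (T_build_N D 0 1 + T_build_N D 0 2 +
      T_build_N D 1 0 + T_build_N D 1 2 + T_build_N D 2 0 + T_build_N D 2 1) := by
    rw [T_build_T, Fintype.sum_prod_type]
    rw [hsum3]
    simp only [hsum3]
    rw [T_build_diag, T_build_diag, T_build_diag, D0, D1, D2]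
    ring
  refine ⟨T_build_S D, ?_, ?_, ?_⟩
  · rw [T_build_card, hsum3, D0, D1, D2]
  · rw [hT]
    exact Nat.le_add_right _ _
  · intro hA
    rw [hT]
    have hD0 : D 0 = univ := by rw [D0, hA]
    have n01 : -((0 : ZMod 3) + 1) = 2 := by decide
    have n02 : -((0 : ZMod 3) + 2) = 1 := by decide
    have n10 : -((1 : ZMod 3) + 0) = 2 := by decide
    have n20 : -((2 : ZMod 3) + 0) = 1 := by decide
    have n12 : -((1 : ZMod 3) + 2) = 0 := by decide
    have n21 : -((2 : ZMod 3) + 1) = 0 := by decide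
    rw [T_build_first D 0 1 hD0, T_build_first D 0 2 hD0, T_build_second D 1 0 hD0,
      T_build_second D 2 0 hD0, T_build_third D 1 2 (by rw [n12, hD0]),
      T_build_third D 2 1 (by rw [n21, hD0]), n01, n02, n10, n20, D1, D2]
    ring

section basic

variable {G : Type*} [AddCommGroup G]

theorem T_le_sq (S : Finset G) : T S ≤ S.card ^ 2 := by
  classical
  unfold T
  refine (card_filter_le _ _).trans ?_
  rw [card_product, sq]

theorem T_empty : T (∅ : Finset G) = 0 := by
  have := T_le_sq (∅ : Finset G)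
  simpa using this

theorem T_map {G' : Type*} [AddCommGroup G'] (f : G →+ G') (hf : Function.Injective f)
    (S : Finset G) : T (S.map ⟨f, hf⟩) = T S := by
  classical
  unfold T
  symm
  refine card_bij (fun p _ => (f p.1, f p.2)) ?_ ?_ ?_
  · rintro ⟨a, b⟩ h
    simp only [mem_filter, mem_product, mem_map, Function.Embedding.coeFn_mk] at h ⊢
    refine ⟨⟨⟨a, h.1.1, rfl⟩, ⟨b, h.1.2, rfl⟩⟩, ⟨-(a + b), h.2, by simp⟩⟩
  · rintro ⟨a, b⟩ _ ⟨c, d⟩ _ h
    simp only [Prod.mk.injEq] at h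
    exact Prod.ext (hf h.1) (hf h.2)
  · rintro ⟨a, b⟩ h
    simp only [mem_filter, mem_product, mem_map, Function.Embedding.coeFn_mk] at h
    obtain ⟨⟨⟨x, hx, rfl⟩, ⟨y, hy, rfl⟩⟩, ⟨z, hz, hz2⟩⟩ := h
    refine ⟨(x, y), ?_, rfl⟩
    simp only [mem_filter, mem_product]
    refine ⟨⟨hx, hy⟩, ?_⟩
    have : z = -(x + y) := by
      apply hf; rw [hz2]; simp
    rwa [← this]

theorem T_translate (h3 : ∀ x : G, x + x + x = 0) (c : G) (S : Finset G) :
    T (S.map (addRightEmbedding c)) = T S := by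
  classical
  have key : ∀ x y : G, -(x + c + (y + c)) = -(x + y) + c := by
    intro x y
    have h := h3 c
    have h2 : c + c = -c := by
      rw [eq_neg_iff_add_eq_zero]; exact h
    calc -(x + c + (y + c)) = -(x + y) - (c + c) := by abel
      _ = -(x + y) + c := by rw [h2]; abel
  unfold T
  symm
  refine card_bij (fun p _ => (p.1 + c, p.2 + c)) ?_ ?_ ?_
  · rintro ⟨a, b⟩ h
    simp only [mem_filter, mem_product, mem_map, addRightEmbedding_apply] at h ⊢
    refine ⟨⟨⟨a, h.1.1, rfl⟩, ⟨b, h.1.2, rfl⟩⟩, ⟨-(a + b), h.2, (key a b).symm⟩⟩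
  · rintro ⟨a, b⟩ _ ⟨c', d⟩ _ h
    simp only [Prod.mk.injEq, add_left_inj] at h
    exact Prod.ext h.1 h.2
  · rintro ⟨a, b⟩ h
    simp only [mem_filter, mem_product, mem_map, addRightEmbedding_apply] at h
    obtain ⟨⟨⟨x, hx, rfl⟩, ⟨y, hy, rfl⟩⟩, ⟨z, hz, hz2⟩⟩ := h
    refine ⟨(x, y), ?_, rfl⟩
    simp only [mem_filter, mem_product]
    refine ⟨⟨hx, hy⟩, ?_⟩
    have : z = -(x + y) := by
      rw [key] at hz2; exact add_right_cancel hz2
    rwa [← this]

theorem three_zero [Module (ZMod 3) G] (x : G) : x + x + x = 0 := by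
  have h : ((3 : ZMod 3)) • x = 0 := by
    have : (3 : ZMod 3) = 0 := by decide
    rw [this, zero_smul]
  have h2 : ((3 : ZMod 3)) • x = x + x + x := by
    have : (3 : ZMod 3) = 1 + 1 + 1 := by decide
    rw [this, add_smul, add_smul, one_smul]
  rw [← h2, h]

theorem T_mono_card (S W : Finset G) (h3 : ∀ x : G, x + x + x = 0) (h : S ⊆ W) :
    T S + (W.card - S.card) ≤ T W := by
  classical
  unfold T
  have hd : (W \ S).card = W.card - S.card := card_sdiff_of_subset h
  rw [← hd]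
  have hinj : Set.InjOn (fun x : G => (x, x)) ((W \ S : Finset G) : Set G) := by
    intro a _ b _ hab
    exact (Prod.ext_iff.mp hab).1
  rw [← card_image_of_injOn hinj, ← card_union_of_disjoint]
  · apply card_le_card
    intro p hp
    rcases mem_union.mp hp with hp | hp
    · simp only [mem_filter, mem_product] at hp ⊢
      exact ⟨⟨h hp.1.1, h hp.1.2⟩, h hp.2⟩
    · simp only [mem_image, mem_sdiff] at hp
      obtain ⟨x, ⟨hx, _⟩, rfl⟩ := hp
      simp only [mem_filter, mem_product]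
      refine ⟨⟨hx, hx⟩, ?_⟩
      have : -(x + x) = x := by
        have := h3 x
        rw [neg_eq_iff_add_eq_zero]; exact this
      rwa [this]
  · rw [disjoint_left]
    rintro p hp hp2
    simp only [mem_filter, mem_product] at hp
    simp only [mem_image, mem_sdiff] at hp2
    obtain ⟨x, ⟨_, hx⟩, rfl⟩ := hp2
    exact hx hp.1.1

theorem card_le_T (h3 : ∀ x : G, x + x + x = 0) (W : Finset G) : W.card ≤ T W := by
  have := T_mono_card ∅ W h3 (empty_subset _)
  simp only [card_empty] at this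
  omega

end basic

section Fbasic

theorem h3V (n : ℕ) : ∀ x : Fin n → ZMod 3, x + x + x = 0 := fun x => three_zero x

theorem le_F_of {n : ℕ} (S : Finset (Fin n → ZMod 3)) : T S ≤ F n S.card := by
  unfold F
  exact le_sup (f := T) (by simp [mem_powersetCard])

theorem T_le_F {G : Type*} [AddCommGroup G] [Module (ZMod 3) G] [Finite G] {n : ℕ}
    (hG : Module.finrank (ZMod 3) G = n) (S : Finset G) : T S ≤ F n S.card := by
  classical
  haveI : Module.Finite (ZMod 3) G := Module.Finite.of_finite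
  let e : G ≃ₗ[ZMod 3] (Fin n → ZMod 3) :=
    LinearEquiv.ofFinrankEq G (Fin n → ZMod 3) (by rw [hG]; simp)
  have h1 := T_map (e : G ≃ₗ[ZMod 3] (Fin n → ZMod 3)).toLinearMap.toAddMonoidHom e.injective S
  rw [← h1]
  have h2 := le_F_of (S.map ⟨(e : G ≃ₗ[ZMod 3] (Fin n → ZMod 3)).toLinearMap.toAddMonoidHom, e.injective⟩)
  rwa [card_map] at h2

theorem exists_F {n m : ℕ} (hm : m ≤ 3 ^ n) :
    ∃ S : Finset (Fin n → ZMod 3), S.card = m ∧ T S = F n m := by
  have hne : (powersetCard m (univ : Finset (Fin n → ZMod 3))).Nonempty := by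
    rw [powersetCard_nonempty, card_univ]
    simpa [ZMod.card] using hm
  obtain ⟨S, hS, h⟩ := exists_mem_eq_sup _ hne T
  exact ⟨S, (mem_powersetCard.mp hS).2, h.symm⟩

theorem F_eq_zero {n m : ℕ} (hm : 3 ^ n < m) : F n m = 0 := by
  unfold F
  have : powersetCard m (univ : Finset (Fin n → ZMod 3)) = ∅ := by
    rw [powersetCard_eq_empty, card_univ]
    simpa [ZMod.card] using hm
  rw [this]; rfl

theorem F_le_sq (n m : ℕ) : F n m ≤ m ^ 2 := by
  rcases le_or_gt m (3 ^ n) with h | h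
  · obtain ⟨S, hS, h⟩ := exists_F h
    rw [← h, ← hS]; exact T_le_sq S
  · rw [F_eq_zero h]; positivity

theorem le_F {n m : ℕ} (hm : m ≤ 3 ^ n) : m ≤ F n m := by
  obtain ⟨S, hS, h⟩ := exists_F hm
  rw [← h, ← hS]; exact card_le_T (h3V n) S

theorem F_succ (n m : ℕ) : F n m ≤ F (n + 1) m := by
  rcases le_or_gt m (3 ^ n) with h | h
  · obtain ⟨S, hS, h⟩ := exists_F h
    obtain ⟨S', h1, h2, -⟩ := T_build S ∅ ∅
    have h4 := le_F_of S'
    rw [h1] at h4
    simp only [card_empty, add_zero, T_empty] at h2 h4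
    rw [hS] at h4
    omega
  · rw [F_eq_zero h]; positivity

theorem F_mono {n n' : ℕ} (hn : n ≤ n') (m : ℕ) : F n m ≤ F n' m := by
  induction hn with
  | refl => exact le_rfl
  | step _ ih => exact ih.trans (F_succ _ _)

theorem F_step (n p : ℕ) : F n (p + 1) + 2 ≤ F n p + 3 * (p + 1) := by
  classical
  rcases le_or_gt (p + 1) (3 ^ n) with h | h
  · obtain ⟨S, hS, hT⟩ := exists_F h
    have hne : S.Nonempty := by
      rw [← card_pos, hS]; omega
    obtain ⟨x, hx⟩ := hne
    have h1 := T_erase_eq (h3V n) S x hx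
    have h2 := le_F_of (S.erase x)
    rw [card_erase_of_mem hx, hS] at h2
    have h4 : (S.filter (fun y => -(x + y) ∈ S)).card ≤ p + 1 := by
      rw [← hS]; exact card_filter_le _ _
    simp only [Nat.add_sub_cancel] at h2
    omega
  · rw [F_eq_zero h]; omega

theorem F_super {n p q : ℕ} (hp : p ≤ 3 ^ n) (hq : q ≤ 3 ^ n) :
    F n p + F n q ≤ F (n + 1) (p + q) := by
  obtain ⟨S, hS, hT⟩ := exists_F hp
  obtain ⟨S', hS', hT'⟩ := exists_F hq
  obtain ⟨U, h1, h2, -⟩ := T_build S S' ∅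
  have h4 := le_F_of U
  rw [h1] at h4
  simp only [card_empty, add_zero, T_empty] at h2 h4
  rw [hS, hS'] at h4
  omega

theorem F_build {n p q : ℕ} (hp : p ≤ 3 ^ n) (hq : q ≤ 3 ^ n) :
    (3 ^ n) ^ 2 + F n p + F n q + 6 * (p * q) ≤ F (n + 1) (3 ^ n + p + q) := by
  obtain ⟨S, hS, hT⟩ := exists_F hp
  obtain ⟨S', hS', hT'⟩ := exists_F hq
  obtain ⟨U, h1, -, h2⟩ := T_build (univ : Finset (Fin n → ZMod 3)) S S'
  have h4 := le_F_of U
  have hu : (univ : Finset (Fin n → ZMod 3)).card = 3 ^ n := by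
    rw [card_univ]; simp [ZMod.card]
  have hTu : T (univ : Finset (Fin n → ZMod 3)) = (3 ^ n) ^ 2 := by
    have h := T_compl (univ : Finset (Fin n → ZMod 3)) ∅ (by intro x; simp)
    have hc : Fintype.card (Fin n → ZMod 3) = 3 ^ n := by simp [ZMod.card]
    rw [T_empty, hc, card_empty] at h
    push_cast at h
    have h' : (T (univ : Finset (Fin n → ZMod 3)) : ℤ) = (((3 ^ n) ^ 2 : ℕ) : ℤ) := by
      push_cast; linarith
    exact_mod_cast h'
  rw [h1, h2 rfl, hu, hS, hS', hTu, hT, hT'] at h4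
  exact h4

theorem F_compl {n w : ℕ} (hw : w ≤ 3 ^ n) :
    (F n (3 ^ n - w) : ℤ) ≤ (3 ^ n : ℤ) ^ 2 - 3 * (3 ^ n : ℤ) * w + 3 * (w : ℤ) ^ 2 - w := by
  classical
  obtain ⟨S, hS, hT⟩ := exists_F (n := n) (m := 3 ^ n - w) (by omega)
  have h1 := T_compl S Sᶜ (by intro x; simp)
  have hc : Fintype.card (Fin n → ZMod 3) = 3 ^ n := by simp [ZMod.card]
  have hW : (Sᶜ).card = w := by
    rw [card_compl, hc, hS]; omega
  have h2 := card_le_T (h3V n) Sᶜ
  rw [hW] at h1 h2
  rw [hc, hT] at h1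
  rw [h1]
  push_cast
  have : (w : ℤ) ≤ (T Sᶜ : ℤ) := by exact_mod_cast h2
  linarith

/-- growth of `F` by removing points from the complement of an optimal set -/
theorem F_growth {n u w w' : ℕ} (hu : u + w = 3 ^ n) (hw : w' ≤ w) :
    ∃ t' : ℤ, t' + (w - w' : ℤ) ≤ (3 ^ n : ℤ) ^ 2 - 3 * (3 ^ n : ℤ) * w + 3 * (w : ℤ) ^ 2 - F n u ∧
      (t' - w') * (w.choose 3 : ℤ) ≤
        ((3 ^ n : ℤ) ^ 2 - 3 * (3 ^ n : ℤ) * w + 3 * (w : ℤ) ^ 2 - F n u - w) * (w'.choose 3 : ℤ) ∧
      (3 ^ n : ℤ) ^ 2 - 3 * (3 ^ n : ℤ) * w' + 3 * (w' : ℤ) ^ 2 - t' ≤ F n (u + (w - w')) := by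
  classical
  obtain ⟨S, hS, hT⟩ := exists_F (n := n) (m := u) (by omega)
  have h1 := T_compl S Sᶜ (by intro x; simp)
  have hc : Fintype.card (Fin n → ZMod 3) = 3 ^ n := by simp [ZMod.card]
  have hW : (Sᶜ).card = w := by
    rw [card_compl, hc, hS]; omega
  obtain ⟨W', hsub, hcard, hineq⟩ := T_remove (h3V n) Sᶜ w' (by omega)
  have h5 := T_mono_card W' Sᶜ (h3V n) hsub
  have h6 := T_compl W'ᶜ W' (by intro x; simp)
  have h7 := le_F_of W'ᶜ
  have hW' : (W'ᶜ).card = u + (w - w') := by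
    rw [card_compl, hc, hcard]; omega
  rw [hW] at h1 h5 hineq
  rw [hcard] at h5 h6
  rw [hc, hT] at h1
  rw [hc] at h6
  rw [hW'] at h7
  push_cast at h1 h6
  have h5' : (T W' : ℤ) + ((w : ℤ) - w') ≤ T Sᶜ := by
    have : ((T W' + (w - w') : ℕ) : ℤ) ≤ ((T Sᶜ : ℕ) : ℤ) := by exact_mod_cast h5
    rw [Nat.cast_add, Nat.cast_sub hw] at this
    exact this
  refine ⟨T W', ?_, ?_, ?_⟩
  · linarith
  · have e : (3 ^ n : ℤ) ^ 2 - 3 * (3 ^ n : ℤ) * w + 3 * (w : ℤ) ^ 2 - F n u - w = (T Sᶜ : ℤ) - w := by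
      linarith
    rw [e]; exact hineq
  · have : (T W'ᶜ : ℤ) ≤ F n (u + (w - w')) := by exact_mod_cast h7
    linarith

theorem F_proj {n m : ℕ} (hm : m ≤ 3 ^ (n + 1)) :
    ∃ k ≤ m, (3 ^ (n + 1) - 1) * k ≤ m * (m - 1) ∧ F (n + 1) m ≤ F n (m - k) + 3 * k ^ 2 := by
  classical
  obtain ⟨S, hS, hT⟩ := exists_F hm
  have hc : Fintype.card (Fin (n + 1) → ZMod 3) = 3 ^ (n + 1) := by simp [ZMod.card]
  obtain ⟨v, hv, h1⟩ := exists_dir (by rw [hc]; exact Nat.one_lt_pow (by omega) (by omega)) S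
  set K := Submodule.span (ZMod 3) {v} with hK
  have h2 := T_proj (K.mkQ.toAddMonoidHom) S
  set U := S.image K.mkQ with hU
  have hU' : S.image (K.mkQ.toAddMonoidHom) = U := rfl
  rw [hU'] at h2
  have hfr : Module.finrank (ZMod 3) ((Fin (n + 1) → ZMod 3) ⧸ K) = n := by
    have h := Submodule.finrank_quotient_add_finrank K
    have h2 : Module.finrank (ZMod 3) K = 1 := finrank_span_singleton hv
    have h3 : Module.finrank (ZMod 3) (Fin (n + 1) → ZMod 3) = n + 1 := by simp
    omega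
  have h4 := T_le_F hfr U
  have h5 : U.card ≤ m := by rw [← hS]; exact card_image_le
  refine ⟨m - U.card, by omega, ?_, ?_⟩
  · rw [hc, hS] at h1
    exact h1
  · have : m - (m - U.card) = U.card := by omega
    rw [this, ← hT]
    rw [hS] at h2
    omega

theorem T_section_le {n : ℕ} {G : Type*} [AddCommGroup G] [Module (ZMod 3) G] [Finite G]
    (hG : Module.finrank (ZMod 3) G = n + 1) (f : G →ₗ[ZMod 3] ZMod 3) (hf : f ≠ 0) (i : ZMod 3)
    (S : Finset G) (hS : ∀ x ∈ S, f x = i) : T S ≤ F n S.card ∧ S.card ≤ 3 ^ n := by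
  classical
  haveI : Module.Finite (ZMod 3) G := Module.Finite.of_finite
  have hsurj : Function.Surjective f := LinearMap.surjective hf
  obtain ⟨x0, hx0⟩ := hsurj (-i)
  have hker : Module.finrank (ZMod 3) (LinearMap.ker f) = n := by
    have h := LinearMap.finrank_range_add_finrank_ker f
    rw [LinearMap.range_eq_top.mpr hsurj, finrank_top, hG] at h
    simp at h
    omega
  set S1 := S.map (addRightEmbedding x0) with hS1
  have hmem : ∀ x ∈ S1, x ∈ LinearMap.ker f := by
    intro x hx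
    rw [hS1, mem_map] at hx
    obtain ⟨y, hy, rfl⟩ := hx
    rw [LinearMap.mem_ker, addRightEmbedding_apply, map_add, hS y hy, hx0]
    ring
  set S2 : Finset (LinearMap.ker f) := S1.subtype (· ∈ LinearMap.ker f) with hS2
  have h12 : S2.map ⟨(LinearMap.ker f).subtype.toAddMonoidHom, Subtype.val_injective⟩ = S1 := by
    ext x
    simp only [mem_map, hS2, mem_subtype]
    constructor
    · rintro ⟨y, hy, rfl⟩; exact hy
    · intro hx
      exact ⟨⟨x, hmem x hx⟩, hx, rfl⟩
  have hT1 : T S1 = T S := T_translate three_zero x0 S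
  have hT2 : T S1 = T S2 := by
    have := T_map (LinearMap.ker f).subtype.toAddMonoidHom Subtype.val_injective S2
    rw [h12] at this
    exact this
  have hcard : S2.card = S.card := by
    have : (S2.map ⟨(LinearMap.ker f).subtype.toAddMonoidHom, Subtype.val_injective⟩).card = S1.card := by
      rw [h12]
    rw [card_map, hS1, card_map] at this
    exact this
  constructor
  · rw [← hT1, hT2, ← hcard]
    exact T_le_F hker S2
  · rw [← hcard]
    haveI : Fintype (LinearMap.ker f) := Fintype.ofFinite _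
    refine (card_le_univ S2).trans ?_
    have h8 := Module.card_eq_pow_finrank (K := ZMod 3) (V := LinearMap.ker f)
    rw [hker] at h8
    rw [h8]
    simp [ZMod.card]

theorem F_sec {n m : ℕ} (hm : m ≤ 3 ^ (n + 1)) :
    ∃ a b c : ℕ, a + b + c = m ∧ a ≤ 3 ^ n ∧ b ≤ 3 ^ n ∧ c ≤ 3 ^ n ∧
      F (n + 1) m ≤ F n a + F n b + F n c + 6 * (b * c) ∧
      2 * ((3 ^ (n + 1) : ℤ) * F (n + 1) m - (m : ℤ) ^ 3) ≤
        (3 * (a : ℤ) - m) * ((m : ℤ) * 3 ^ (n + 1) - (m : ℤ) ^ 2) := by
  classical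
  obtain ⟨S, hS, hT⟩ := exists_F hm
  have hc : Fintype.card (Fin (n + 1) → ZMod 3) = 3 ^ (n + 1) := by simp [ZMod.card]
  obtain ⟨f, i, hf, h1⟩ := exists_hyperplane (by rw [hc]; exact Nat.one_lt_pow (by omega) (by omega)) S
  have hfr : Module.finrank (ZMod 3) (Fin (n + 1) → ZMod 3) = n + 1 := by simp
  have ha := T_section_le hfr f hf i (S.filter (fun x => f x = i)) (by intro x hx; exact (mem_filter.mp hx).2)
  have hb := T_section_le hfr f hf (i + 1) (S.filter (fun x => f x = i + 1)) (by intro x hx; exact (mem_filter.mp hx).2)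
  have hcc := T_section_le hfr f hf (i + 2) (S.filter (fun x => f x = i + 2)) (by intro x hx; exact (mem_filter.mp hx).2)
  have h2 := T_sections f.toAddMonoidHom S i
  have h2' : T S ≤ T (S.filter (fun x => f x = i)) + T (S.filter (fun x => f x = i + 1))
      + T (S.filter (fun x => f x = i + 2))
      + 6 * (S.filter (fun x => f x = i + 1)).card * (S.filter (fun x => f x = i + 2)).card := h2
  have hsum : (S.filter (fun x => f x = i)).card + (S.filter (fun x => f x = i + 1)).card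
      + (S.filter (fun x => f x = i + 2)).card = m := by
    rw [← hS, ← card_union_of_disjoint, ← card_union_of_disjoint]
    · congr 1
      ext x
      simp only [mem_union, mem_filter]
      constructor
      · rintro ((h | h) | h) <;> exact h.1
      · intro hx
        have : ∀ a b : ZMod 3, a = b ∨ a = b + 1 ∨ a = b + 2 := by decide
        rcases this (f x) i with h | h | h
        · exact Or.inl (Or.inl ⟨hx, h⟩)
        · exact Or.inl (Or.inr ⟨hx, h⟩)
        · exact Or.inr ⟨hx, h⟩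
    · rw [disjoint_left]
      intro x hx hx2
      simp only [mem_union, mem_filter] at hx hx2
      have : ∀ b : ZMod 3, b ≠ b + 2 ∧ b + 1 ≠ b + 2 := by decide
      rcases hx with h | h
      · exact (this i).1 (h.2.symm.trans hx2.2)
      · exact (this i).2 (h.2.symm.trans hx2.2)
    · rw [disjoint_left]
      intro x hx hx2
      simp only [mem_filter] at hx hx2
      have : ∀ b : ZMod 3, b ≠ b + 1 := by decide
      exact (this i) (hx.2.symm.trans hx2.2)
  refine ⟨_, _, _, hsum, ha.2, hb.2, hcc.2, ?_, ?_⟩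
  · rw [← hT]
    have e : 6 * (S.filter (fun x => f x = i + 1)).card * (S.filter (fun x => f x = i + 2)).card
      = 6 * ((S.filter (fun x => f x = i + 1)).card * (S.filter (fun x => f x = i + 2)).card) := by ring
    rw [e] at h2'
    have := ha.1
    have := hb.1
    have := hcc.1
    omega
  · rw [hc, hS, hT] at h1
    push_cast at h1
    exact h1

end Fbasic

end Pool.Agent.Helper285.Lines
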