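import Pool.Agent.Helper285.Lines.Core
import Pool.Agent.Helper285.Lines.Arith

namespace Pool.Agent.Helper285.Lines

open Finset

/-- best value for `e` further points besides a full subspace of dimension `d` -/
noncomputable def G (d e : ℕ) : ℕ :=
  (range (e + 1)).sup (fun p => 6 * (p * (e - p)) + F d p + F d (e - p))

theorem le_G {d e p q : ℕ} (h : p + q = e) : 6 * (p * q) + F d p + F d q ≤ G d e := by
  have hq : q = e - p := by omega
  subst hq
  exact le_sup (f := fun p => 6 * (p * (e - p)) + F d p + F d (e - p))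
    (mem_range.mpr (by omega))

theorem exists_G (d e : ℕ) :
    ∃ p q, p + q = e ∧ p ≤ q ∧ G d e = 6 * (p * q) + F d p + F d q := by
  obtain ⟨p, hp, h⟩ := exists_mem_eq_sup (range (e + 1)) ⟨0, by simp⟩
    (fun p => 6 * (p * (e - p)) + F d p + F d (e - p))
  rw [mem_range] at hp
  rcases le_total p (e - p) with h1 | h1
  · exact ⟨p, e - p, by omega, h1, h⟩
  · refine ⟨e - p, p, by omega, h1, ?_⟩
    rw [G, h]; ring

theorem F_zero (n : ℕ) : F n 0 = 0 := by
  have := F_le_sq n 0
  simpa using this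

theorem G_step (d s : ℕ) : 2 * G d (s + 1) + 4 ≤ 2 * G d s + 9 * (s + 1) := by
  obtain ⟨p, q, h1, h2, h3⟩ := exists_G d (s + 1)
  obtain ⟨q', rfl⟩ : ∃ q', q = q' + 1 := ⟨q - 1, by omega⟩
  have h4 := F_step d q'
  have h5 := le_G (d := d) (show p + q' = s by omega)
  rw [h3]
  have : p * (q' + 1) = p * q' + p := by ring
  rw [this]
  omega

theorem G_grow (d e b : ℕ) :
    4 * (G d (e + b) : ℤ) ≤ 4 * G d e + 18 * (e * b) + 9 * b ^ 2 + b := by
  induction b with
  | zero => simp
  | succ b ih =>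
    have h := G_step d (e + b)
    have h' : 2 * (G d (e + b + 1) : ℤ) + 4 ≤ 2 * G d (e + b) + 9 * ((e : ℤ) + b + 1) := by
      exact_mod_cast h
    have e1 : e + (b + 1) = e + b + 1 := by ring
    rw [e1]
    push_cast
    nlinarith

theorem G_low {d e : ℕ} (he : e ≤ 3 ^ d) : 3 * e ^ 2 + 2 * e ≤ 2 * G d e + 3 := by
  obtain ⟨p, hp⟩ : ∃ p, p = e / 2 := ⟨_, rfl⟩
  have h1 := le_G (d := d) (show p + (e - p) = e by omega)
  have h2 := le_F (n := d) (m := p) (by omega)
  have h3 := le_F (n := d) (m := e - p) (by omega)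
  rcases Nat.even_or_odd' e with ⟨k, hk | hk⟩
  · have hpk : p = k := by omega
    have hq : e - p = k := by omega
    rw [hq] at h1 h3
    rw [hpk] at h1 h2
    subst hk
    nlinarith
  · have hpk : p = k := by omega
    have hq : e - p = k + 1 := by omega
    rw [hq] at h1 h3
    rw [hpk] at h1 h2
    subst hk
    nlinarith

theorem G_super {d e e0 j : ℕ} (he : e0 + j = e) (hed : e ≤ 3 ^ d)
    (hP : ∀ r ≤ e, F (d + 1) r ≤ F d r) : G d e0 + G d j ≤ G d e := by
  obtain ⟨p1, q1, h1, -, h3⟩ := exists_G d e0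
  obtain ⟨p2, q2, h4, -, h6⟩ := exists_G d j
  have h7 := le_G (d := d) (show (p1 + p2) + (q1 + q2) = e by omega)
  have h8 := F_super (n := d) (p := p1) (q := p2) (by omega) (by omega)
  have h9 := F_super (n := d) (p := q1) (q := q2) (by omega) (by omega)
  have h10 := hP (p1 + p2) (by omega)
  have h11 := hP (q1 + q2) (by omega)
  rw [h3, h6]
  have : p1 * q1 + p2 * q2 ≤ (p1 + p2) * (q1 + q2) := by
    nlinarith [Nat.zero_le (p1 * q2), Nat.zero_le (p2 * q1)]
  omega

theorem F_compl' {n b a : ℕ} (hab : a + b = 3 ^ n) :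
    (F n a : ℤ) ≤ (3 ^ n : ℤ) ^ 2 - 3 * (3 ^ n : ℤ) * b + 3 * (b : ℤ) ^ 2 - b := by
  have h := F_compl (n := n) (w := b) (by omega)
  have : 3 ^ n - b = a := by omega
  rwa [this] at h

/-- Lemma B: the value for `h + e` points, `2 e ≤ h`, in dimension one more -/
theorem lemB {d e : ℕ} (he : 2 * e ≤ 3 ^ d) : F (d + 1) (3 ^ d + e) ≤ (3 ^ d) ^ 2 + 2 * e ^ 2 := by
  by_contra hcon
  push Not at hcon
  obtain ⟨a, b, c, hsum, ha, hb, hc, hT, hconc⟩ := F_sec (n := d) (m := 3 ^ d + e)
    (by rw [pow_succ]; omega)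
  obtain ⟨β, hβ⟩ : ∃ β, a + β = 3 ^ d := ⟨3 ^ d - a, by omega⟩
  have hbc : b + c = e + β := by omega
  have h1 := F_compl' hβ
  have h2 := F_le_sq d b
  have h3 := F_le_sq d c
  obtain ⟨h, hh⟩ : ∃ h : ℤ, h = 3 ^ d := ⟨_, rfl⟩
  have hhn : ((3 ^ d : ℕ) : ℤ) = h := by rw [hh]; push_cast; rfl
  have hpos : 0 < h := by rw [hh]; positivity
  have ha' : (a : ℤ) = h - β := by
    have : ((a + β : ℕ) : ℤ) = ((3 ^ d : ℕ) : ℤ) := by rw [hβ]
    rw [hhn] at this; push_cast at this; linarith
  have he' : 2 * (e : ℤ) ≤ h := by rw [← hhn]; exact_mod_cast he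
  obtain ⟨V, hV⟩ : ∃ V : ℤ, V = F (d + 1) (3 ^ d + e) := ⟨_, rfl⟩
  have hcon' : h ^ 2 + 2 * (e : ℤ) ^ 2 + 1 ≤ V := by
    rw [hV, ← hhn]; exact_mod_cast hcon
  have hT' : V ≤ F d a + F d b + F d c + 6 * (b * c) := by
    rw [hV]; exact_mod_cast hT
  have h2' : (F d b : ℤ) ≤ b ^ 2 := by exact_mod_cast h2
  have h3' : (F d c : ℤ) ≤ c ^ 2 := by exact_mod_cast h3
  have hbc' : (b : ℤ) + c = e + β := by exact_mod_cast hbc
  have hsq : (b : ℤ) ^ 2 + c ^ 2 + 6 * (b * c) ≤ 2 * (e + β) ^ 2 := by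
    rw [← hbc']; nlinarith [sq_nonneg ((b : ℤ) - c)]
  rw [← hh] at h1
  have h4 : 1 ≤ (β : ℤ) * (5 * β + 4 * e - 3 * h - 1) := by nlinarith
  have hconc' : 2 * (3 * h * V - (h + e) ^ 3) ≤
      (3 * (h - β) - (h + e)) * ((h + e) * (3 * h) - (h + e) ^ 2) := by
    have h5 : (3 : ℤ) ^ (d + 1) = 3 * h := by rw [hh]; ring
    rw [h5, ← hV, ha'] at hconc
    push_cast at hconc
    rw [← hh] at hconc
    linarith
  have h6 := beta_bound2 hpos (by positivity) he' (by linarith) hconc'
  have h7 : (β : ℤ) * (5 * β + 4 * e - 3 * h - 1) ≤ 0 :=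
    mul_nonpos_of_nonneg_of_nonpos (by positivity) (by linarith)
  linarith

/-- the statement carried in the induction -/
def Q (m : ℕ) : Prop :=
  (∀ n d, m ≤ 3 ^ d → F n m ≤ F d m) ∧
    (∀ d e n, m = 3 ^ d + e → 50 * e ≤ 19 * 3 ^ d → F n m ≤ (3 ^ d) ^ 2 + G d e)

theorem caseB {m : ℕ} (IH : ∀ m' < m, Q m') {d e : ℕ} (hm : m = 3 ^ d + e)
    (he : 50 * e ≤ 19 * 3 ^ d) (n : ℕ) : F n m ≤ (3 ^ d) ^ 2 + G d e := by
  rcases Nat.eq_zero_or_pos e with he0 | he0
  · have h1 := F_le_sq n m
    rw [hm, he0, add_zero] at h1 ⊢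
    omega
  have hd1 : 1 ≤ 3 ^ d := Nat.one_le_pow _ _ (by norm_num)
  have hP : ∀ r < m, ∀ n, r ≤ 3 ^ d → F n r ≤ F d r := fun r hr n h => (IH r hr).1 n d h
  induction n with
  | zero =>
    rw [F_eq_zero (by rw [pow_zero]; omega)]
    positivity
  | succ n ihn =>
    rcases Nat.lt_or_ge (3 ^ (n + 1)) m with hN | hN
    · rw [F_eq_zero hN]; positivity
    obtain ⟨a, b, c, hsum, ha, hb, hc, hT, hconc⟩ := F_sec hN
    by_contra hcon
    push Not at hcon
    rcases Nat.lt_or_ge a (3 ^ d) with had | had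
    · -- the largest section is smaller than `h`
      obtain ⟨β, hβ⟩ : ∃ β, a + β = 3 ^ d := ⟨3 ^ d - a, by omega⟩
      obtain ⟨h, hh⟩ : ∃ h : ℤ, h = 3 ^ d := ⟨_, rfl⟩
      have hhn : ((3 ^ d : ℕ) : ℤ) = h := by rw [hh]; push_cast; rfl
      have hpos : 0 < h := by rw [hh]; positivity
      have ha' : (a : ℤ) = h - β := by
        have : ((a + β : ℕ) : ℤ) = ((3 ^ d : ℕ) : ℤ) := by rw [hβ]
        rw [hhn] at this; push_cast at this; linarith
      have hm' : (m : ℤ) = h + e := by rw [hm]; push_cast; rw [hh]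
      have he' : 50 * (e : ℤ) ≤ 19 * h := by rw [← hhn]; exact_mod_cast he
      have hbc : b + c = e + β := by omega
      obtain ⟨V, hV⟩ : ∃ V : ℤ, V = F (n + 1) m := ⟨_, rfl⟩
      have hcon' : h ^ 2 + (G d e : ℤ) + 1 ≤ V := by
        rw [hV, ← hhn]; exact_mod_cast hcon
      have hlow : 3 * (e : ℤ) ^ 2 + 2 * e ≤ 2 * G d e + 3 := by
        exact_mod_cast G_low (d := d) (e := e) (by omega)
      have he1 : (1 : ℤ) ≤ e := by exact_mod_cast he0
      have hVsq : V ≤ (h + e) ^ 2 := by
        rw [hV, ← hm']; exact_mod_cast F_le_sq (n + 1) m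
      have hN3 : 3 * h ≤ (3 : ℤ) ^ (n + 1) := by
        have h1 : 3 ^ d < 3 ^ (n + 1) := by omega
        have h2 : d < n + 1 := (Nat.pow_lt_pow_iff_right (by norm_num)).mp h1
        have h3 : 3 ^ (d + 1) ≤ 3 ^ (n + 1) := Nat.pow_le_pow_right (by norm_num) h2
        have h4 : ((3 ^ (d + 1) : ℕ) : ℤ) ≤ ((3 ^ (n + 1) : ℕ) : ℤ) := by exact_mod_cast h3
        push_cast at h4
        rw [hh]; rw [pow_succ] at h4; linarith
      have hconc1 : 2 * (3 * h * V - (h + e) ^ 3) ≤
          (3 * (h - β) - (h + e)) * (h + e) * (3 * h - (h + e)) := by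
        rw [← hV, ha', hm'] at hconc
        exact conc_reduce hN3 (by linarith) (by positivity) hVsq hconc
      have hb1 := beta_bound hpos (by positivity) he' (by linarith) hconc1
      have heβ : e + β ≤ 3 ^ d := by
        have : (e : ℤ) + β ≤ h := by linarith
        rw [← hhn] at this; exact_mod_cast this
      have h1 := F_compl' hβ
      rw [← hh] at h1
      have h2 := hP a (by omega) n (by omega)
      have h3 := hP b (by omega) n (by omega)
      have h4 := hP c (by omega) n (by omega)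
      have h5 := le_G (d := d) hbc
      have h6 := G_grow d e β
      have h7 : V ≤ F d a + G d (e + β) := by
        have : F (n + 1) m ≤ F d a + G d (e + β) := by omega
        rw [hV]; exact_mod_cast this
      have h8 : 4 ≤ (β : ℤ) * (21 * β + 18 * e - 12 * h - 3) := by nlinarith
      have h9 : (β : ℤ) * (21 * β + 18 * e - 12 * h - 3) ≤ 0 :=
        mul_nonpos_of_nonneg_of_nonpos (by positivity) (by linarith)
      linarith
    · rcases Nat.eq_or_lt_of_le (show a ≤ m by omega) with ham | ham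
      · have hb0 : b = 0 := by omega
        have hc0 : c = 0 := by omega
        rw [hb0, hc0, F_zero, ham] at hT
        omega
      · obtain ⟨e0, he0'⟩ : ∃ e0, a = 3 ^ d + e0 := ⟨a - 3 ^ d, by omega⟩
        have h1 := (IH a ham).2 d e0 n he0' (by omega)
        have h3 := hP b (by omega) n (by omega)
        have h4 := hP c (by omega) n (by omega)
        have h5 := le_G (d := d) (show b + c = b + c from rfl)
        have h6 := G_super (d := d) (e := e) (e0 := e0) (j := b + c) (by omega) (by omega)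
          (fun r hr => hP r (by omega) (d + 1) (by omega))
        omega

theorem caseA {m : ℕ} (IH : ∀ m' < m, Q m') {d e : ℕ} (hm : m = 3 ^ d + e)
    (he : 19 * 3 ^ d ≤ 50 * e) (he2 : m ≤ 3 ^ (d + 1)) (n : ℕ) : F n m ≤ F (d + 1) m := by
  have hd1 : 1 ≤ 3 ^ d := Nat.one_le_pow _ _ (by norm_num)
  have h3d : 3 ^ (d + 1) = 3 * 3 ^ d := by ring
  induction n with
  | zero => exact F_mono (by omega) m
  | succ n ihn =>
    rcases Nat.lt_or_ge n (d + 1) with hn | hn
    · exact F_mono (by omega) m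
    have hmn : m ≤ 3 ^ (n + 1) := he2.trans (Nat.pow_le_pow_right (by norm_num) (by omega))
    obtain ⟨k, hkm, hk, hF⟩ := F_proj hmn
    rcases Nat.eq_zero_or_pos k with hk0 | hk0
    · rw [hk0] at hF
      simp only [Nat.sub_zero] at hF
      omega
    have hN : 9 * 3 ^ d ≤ 3 ^ (n + 1) := by
      have h1 : 3 ^ (d + 2) ≤ 3 ^ (n + 1) := Nat.pow_le_pow_right (by norm_num) (by omega)
      have h2 : 3 ^ (d + 2) = 9 * 3 ^ d := by ring
      omega
    have hk2 : (9 * 3 ^ d - 1) * k ≤ m * (m - 1) :=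
      (Nat.mul_le_mul_right k (by omega)).trans hk
    have hP := (IH (m - k) (by omega)).1 n (d + 1) (by omega)
    obtain ⟨u, hu⟩ : ∃ u, u + k = m := ⟨m - k, by omega⟩
    have hmk : m - k = u := by omega
    rw [hmk] at hP hF
    obtain ⟨w, hw⟩ : ∃ w, u + w = 3 ^ (d + 1) := ⟨3 ^ (d + 1) - u, by omega⟩
    obtain ⟨w', hw'⟩ : ∃ w', w' + k = w := ⟨w - k, by omega⟩
    obtain ⟨t', ht1, ht2, ht3⟩ := F_growth hw (show w' ≤ w by omega)
    have huk : u + (w - w') = m := by omega
    rw [huk] at ht3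
    -- integers
    obtain ⟨h, hh⟩ : ∃ h : ℤ, h = 3 ^ d := ⟨_, rfl⟩
    have hhn : ((3 ^ d : ℕ) : ℤ) = h := by rw [hh]; push_cast; rfl
    have h3 : (3 : ℤ) ^ (d + 1) = 3 * h := by rw [hh]; ring
    rw [h3] at ht1 ht2 ht3
    have hpos : 0 < h := by rw [hh]; positivity
    have hw'z : (w' : ℤ) = w - k := by rw [← hw']; push_cast; ring
    have huw : (u : ℤ) + w = 3 * h := by
      have : ((u + w : ℕ) : ℤ) = ((3 ^ (d + 1) : ℕ) : ℤ) := by rw [hw]
      rw [h3d] at this; push_cast at this; rw [← hh] at this; exact this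
    obtain ⟨t, ht⟩ : ∃ t : ℤ, t = (3 * h) ^ 2 - 3 * (3 * h) * w + 3 * (w : ℤ) ^ 2 - F (d + 1) u :=
      ⟨_, rfl⟩
    rw [← ht] at ht1 ht2
    have hkz : (1 : ℤ) ≤ k := by exact_mod_cast hk0
    have key : 0 ≤ 3 * (k : ℤ) * (u - w) + t - t' := by
      rcases Nat.lt_or_ge u w with huw' | huw'
      · -- case (ii)
        have h9 : 9 ≤ 3 ^ d := by
          rcases Nat.lt_or_ge d 2 with hd | hd
          · exfalso
            interval_cases d
            · have hm3 : m ≤ 3 := by simpa using he2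
              have : 8 * k ≤ m * (m - 1) := by simpa using hk2
              have h7 : m * (m - 1) ≤ 3 * 2 := Nat.mul_le_mul hm3 (by omega)
              omega
            · have hm9 : m ≤ 9 := by simpa using he2
              have h26 : 26 * k ≤ m * (m - 1) := by simpa using hk2
              have hm5 : 3 + 2 ≤ m := by omega
              have hw9 : u + w = 9 := by simpa using hw
              interval_cases m <;> omega
          · calc 9 = 3 ^ 2 := by norm_num
              _ ≤ 3 ^ d := Nat.pow_le_pow_right (by norm_num) hd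
        have h9' : (9 : ℤ) ≤ h := by rw [← hhn]; exact_mod_cast h9
        have hm' : (m : ℤ) = h + e := by rw [hm]; push_cast; rw [hh]
        have he' : 19 * h ≤ 50 * (e : ℤ) := by rw [← hhn]; exact_mod_cast he
        have he2' : (e : ℤ) ≤ 2 * h := by
          have : e ≤ 2 * 3 ^ d := by omega
          rw [← hhn]; exact_mod_cast this
        have hk3 : (9 * h - 1) * k ≤ (h + e) * (h + e - 1) := by
          have h1 : (((9 * 3 ^ d - 1) * k : ℕ) : ℤ) ≤ ((m * (m - 1) : ℕ) : ℤ) := by
            exact_mod_cast hk2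
          rw [Nat.cast_mul, Nat.cast_mul, Nat.cast_sub (by omega), Nat.cast_sub (by omega), hm']
            at h1
          push_cast at h1
          rw [← hh] at h1
          exact h1
        have hkb := k_bound h9' he' he2' hk3
        have hke : k ≤ e := by
          have : (k : ℤ) ≤ e := by linarith
          exact_mod_cast this
        obtain ⟨e', he'e⟩ : ∃ e', e' + k = e := ⟨e - k, by omega⟩
        have hue : u = 3 ^ d + e' := by omega
        have he'z : (e' : ℤ) = e - k := by rw [← he'e]; push_cast; ring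
        have h2e' : 2 * e' ≤ 3 ^ d := by omega
        have h2e'z : 2 * (e' : ℤ) ≤ h := by rw [← hhn]; exact_mod_cast h2e'
        have hB := lemB (d := d) (e := e') h2e'
        rw [← hue] at hB
        have hBz : (F (d + 1) u : ℤ) ≤ h ^ 2 + 2 * (e' : ℤ) ^ 2 := by
          rw [← hhn]; exact_mod_cast hB
        have huz : (u : ℤ) = h + e' := by rw [hue]; push_cast; rw [hh]
        have hwz : (w : ℤ) = 2 * h - e' := by linarith
        have htt : (w : ℤ) * (h - e') ≤ t := by
          rw [ht, hwz]; nlinarith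
        have hwk : (t' - ((w : ℤ) - k)) * w ^ 3 ≤ (t - w) * ((w : ℤ) - k) ^ 3 := by
          have hcc := choose_cube (show w' ≤ w by omega)
          have hcc' : (w'.choose 3 : ℤ) * w ^ 3 ≤ (w.choose 3 : ℤ) * w' ^ 3 := by
            exact_mod_cast hcc
          have hw3 : 3 ≤ w := by
            have : (3 : ℤ) ≤ w := by linarith
            exact_mod_cast this
          have hcpos : (0 : ℤ) < (w.choose 3 : ℤ) := by
            exact_mod_cast Nat.choose_pos hw3
          have htw : 0 ≤ t - w := by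
            have : (0 : ℤ) ≤ w * (h - e' - 1) := mul_nonneg (by positivity) (by linarith)
            linarith
          rw [hw'z] at ht2 hcc'
          have h1 := mul_le_mul_of_nonneg_right ht2 (show (0 : ℤ) ≤ (w : ℤ) ^ 3 by positivity)
          have h2 := mul_le_mul_of_nonneg_left hcc' htw
          have h4 : (w.choose 3 : ℤ) * ((t' - ((w : ℤ) - k)) * w ^ 3) ≤
              (w.choose 3 : ℤ) * ((t - w) * ((w : ℤ) - k) ^ 3) := by nlinarith
          exact le_of_mul_le_mul_left h4 hcpos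
        have hw'0 : (0 : ℤ) ≤ w' := by positivity
        have hfin := caseA_final (h := h) (e' := e') (k := k) (w := w) (t := t) (t' := t') hkz
          (by positivity) h2e'z (by linarith) hwz (by linarith) (by linarith) htt hwk
        have : (u : ℤ) - w = -(h - 2 * e') := by linarith
        rw [this]
        linarith
      · -- case (i)
        have : (0 : ℤ) ≤ (k : ℤ) * ((u : ℤ) - w) := by
          apply mul_nonneg (by positivity)
          have : (w : ℤ) ≤ u := by exact_mod_cast huw'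
          linarith
        rw [hw'z] at ht1
        nlinarith
    have hfinal : (F (d + 1) u : ℤ) + 3 * (k : ℤ) ^ 2 ≤ F (d + 1) m := by
      rw [hw'z] at ht3
      have hu' : (u : ℤ) = 3 * h - w := by linarith
      rw [hu'] at key
      nlinarith
    have hfinal' : F (d + 1) u + 3 * k ^ 2 ≤ F (d + 1) m := by exact_mod_cast hfinal
    omega

theorem Q_all (m : ℕ) : Q m := by
  induction m using Nat.strong_induction_on with
  | _ m IH =>
    have hB : ∀ d e n, m = 3 ^ d + e → 50 * e ≤ 19 * 3 ^ d → F n m ≤ (3 ^ d) ^ 2 + G d e :=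
      fun d e n h1 h2 => caseB IH h1 h2 n
    refine ⟨?_, hB⟩
    intro n d hd
    rcases Nat.lt_or_ge m 2 with hm | hm
    · have h1 := F_le_sq n m
      have h2 := le_F hd
      interval_cases m <;> omega
    -- choose `d'` with `3^d' < m ≤ 3^(d'+1)`
    obtain ⟨d', hd1, hd2⟩ : ∃ d', 3 ^ d' < m ∧ m ≤ 3 ^ (d' + 1) := by
      refine ⟨Nat.clog 3 m - 1, ?_, ?_⟩
      · exact Nat.pow_pred_clog_lt_self (by norm_num) (by omega)
      · have h1 := Nat.le_pow_clog (b := 3) (by norm_num) m
        have h2 : 0 < Nat.clog 3 m := Nat.clog_pos (by norm_num) hm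
        have h3 : Nat.clog 3 m - 1 + 1 = Nat.clog 3 m := by omega
        rw [h3]; exact h1
    obtain ⟨e, he⟩ : ∃ e, m = 3 ^ d' + e := ⟨m - 3 ^ d', by omega⟩
    have hdd : d' + 1 ≤ d := by
      have h1 : 3 ^ d' < 3 ^ d := by omega
      exact (Nat.pow_lt_pow_iff_right (by norm_num)).mp h1
    refine le_trans ?_ (F_mono hdd m)
    rcases le_total (50 * e) (19 * 3 ^ d') with h1 | h1
    · refine (hB d' e n he h1).trans ?_
      obtain ⟨p, q, h2, -, h4⟩ := exists_G d' e
      have h5 := F_build (n := d') (p := p) (q := q) (by omega) (by omega)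
      have h6 : 3 ^ d' + p + q = m := by omega
      rw [h6] at h5
      rw [h4]
      omega
    · exact caseA IH he h1 hd2 n

end Pool.Agent.Helper285.Lines
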